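import Pool.Agent.Q171.CA.Dual

/-!
# Characters and their pull backs
-/

open MeasureTheory Filter Topology

namespace Pool.Agent.Q171.CA

set_option linter.unusedSectionVars false

variable {A : Type} [AddCommGroup A]

theorem chi_eq_prod {c : ℤ → AddChar A ℂ} {C : Finset ℤ} (hC : ∀ k, c k ≠ 1 → k ∈ C)
    (x : ℤ → A) : chi c x = ∏ k ∈ C, c k (x k) := by
  refine finprod_eq_prod_of_mulSupport_subset _ ?_
  intro k hk
  apply hC
  intro h
  apply hk
  show c k (x k) = 1
  rw [h]
  rfl

theorem chi_zero (c : ℤ → AddChar A ℂ) : chi c 0 = 1 := by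
  unfold chi
  simp

theorem chi_add {c : ℤ → AddChar A ℂ} (hc : {k | c k ≠ 1}.Finite) (x y : ℤ → A) :
    chi c (x + y) = chi c x * chi c y := by
  have hC : ∀ k, c k ≠ 1 → k ∈ hc.toFinset := fun k hk => hc.mem_toFinset.2 hk
  rw [chi_eq_prod hC, chi_eq_prod hC, chi_eq_prod hC, ← Finset.prod_mul_distrib]
  refine Finset.prod_congr rfl fun k _ => ?_
  rw [Pi.add_apply, AddChar.map_add_eq_mul]

/-- The character as a bundled object. -/
noncomputable def chiC (c : ℤ → AddChar A ℂ) (hc : {k | c k ≠ 1}.Finite) :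
    AddChar (ℤ → A) ℂ where
  toFun := chi c
  map_zero_eq_one' := chi_zero c
  map_add_eq_mul' := chi_add hc

theorem chiC_apply (c : ℤ → AddChar A ℂ) (hc : {k | c k ≠ 1}.Finite) (x : ℤ → A) :
    chiC c hc x = chi c x := rfl

/-- The pull back of a character. -/
noncomputable def pull (G : (ℤ → A) →+ (ℤ → A)) (c : ℤ → AddChar A ℂ)
    (hc : {k | c k ≠ 1}.Finite) : ℤ → AddChar A ℂ :=
  fun j => (chiC c hc).compAddMonoidHom (G.comp (AddMonoidHom.single (fun _ : ℤ => A) j))

theorem pull_apply (G : (ℤ → A) →+ (ℤ → A)) (c : ℤ → AddChar A ℂ)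
    (hc : {k | c k ≠ 1}.Finite) (j : ℤ) (a : A) :
    pull G c hc j a = chi c (G (Pi.single j a)) := rfl

theorem chiC_sum (c : ℤ → AddChar A ℂ) (hc : {k | c k ≠ 1}.Finite) {ι : Type} (s : Finset ι)
    (f : ι → (ℤ → A)) : chi c (∑ i ∈ s, f i) = ∏ i ∈ s, chi c (f i) := by
  classical
  induction s using Finset.induction_on with
  | empty => simp [chi_zero]
  | insert a s ha ih => rw [Finset.sum_insert ha, Finset.prod_insert ha, chi_add hc, ih]

section CA

variable [TopologicalSpace A] [DiscreteTopology A]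

theorem pull_prop {G : (ℤ → A) →+ (ℤ → A)} (hG : IsAbelianCA G) (c : ℤ → AddChar A ℂ)
    (hc : {k | c k ≠ 1}.Finite) : {j | pull G c hc j ≠ 1}.Finite ∧
      ∀ x, chi (pull G c hc) x = chi c (G x) := by
  classical
  obtain ⟨S, hS⟩ := exists_window hG
  set C := hc.toFinset with hCdef
  have hC : ∀ k, c k ≠ 1 → k ∈ C := fun k hk => hc.mem_toFinset.2 hk
  set J : Finset ℤ := (C ×ˢ S).image (fun q => q.1 + q.2) with hJ
  have hdep : ∀ x y : ℤ → A, (∀ j ∈ J, x j = y j) → chi c (G x) = chi c (G y) := by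
    intro x y hxy
    rw [chi_eq_prod hC, chi_eq_prod hC]
    refine Finset.prod_congr rfl fun k hk => ?_
    rw [local_rule hG hS, local_rule hG hS]
    congr 1
    refine Finset.sum_congr rfl fun i hi => ?_
    rw [hxy (k + i) (Finset.mem_image.2 ⟨(k, i), Finset.mem_product.2 ⟨hk, hi⟩, rfl⟩)]
  have hout : ∀ j, pull G c hc j ≠ 1 → j ∈ J := by
    intro j hj
    by_contra hjJ
    apply hj
    ext a
    rw [pull_apply, hdep (Pi.single j a) 0, map_zero, chi_zero]
    · rfl
    · intro j' hj'
      have : j' ≠ j := fun h => hjJ (h ▸ hj')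
      rw [Pi.single_eq_of_ne this]
      rfl
  refine ⟨J.finite_toSet.subset hout, fun x => ?_⟩
  rw [chi_eq_prod hout, hdep x (∑ j ∈ J, Pi.single j (x j)), map_sum, chiC_sum c hc]
  · rfl
  · intro j hj
    rw [Finset.sum_apply, Finset.sum_eq_single j]
    · simp
    · intro i _ hi
      rw [Pi.single_eq_of_ne hi.symm]
    · intro h; exact absurd hj h

/-- Iterates as homomorphisms. -/
def itr (F : (ℤ → A) →+ (ℤ → A)) : ℕ → ((ℤ → A) →+ (ℤ → A))
  | 0 => AddMonoidHom.id _
  | n + 1 => F.comp (itr F n)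

theorem itr_apply (F : (ℤ → A) →+ (ℤ → A)) (n : ℕ) (x : ℤ → A) : itr F n x = F^[n] x := by
  induction n with
  | zero => rfl
  | succ n ih =>
    rw [Function.iterate_succ_apply', ← ih]
    rfl

theorem iterate_ca {F : (ℤ → A) →+ (ℤ → A)} (hF : IsAbelianCA F) (n : ℕ) :
    IsAbelianCA (itr F n) := by
  refine ⟨?_, ?_⟩
  · have : ⇑(itr F n) = F^[n] := funext (itr_apply F n)
    rw [this]
    exact hF.cont.iterate n
  · intro x
    induction n with
    | zero => rfl
    | succ n ih =>
      show F (itr F n (shift x)) = shift (F (itr F n x))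
      rw [ih, hF.comm]

end CA

section torsion

variable {p : ℕ} [Fact p.Prime]

instance : NeZero p := ⟨(Fact.out : p.Prime).ne_zero⟩

/-- The character attached to a finitely supported functional. -/
noncomputable def cw (w : ℤ →₀ (A →+ ZMod p)) : ℤ → AddChar A ℂ :=
  fun k => (ZMod.stdAddChar (N := p)).compAddMonoidHom (w k)

theorem cw_eq_one (w : ℤ →₀ (A →+ ZMod p)) (k : ℤ) : cw w k = 1 ↔ w k = 0 := by
  constructor
  · intro h
    ext a
    have h1 : ZMod.stdAddChar (w k a) = (1 : ℂ) := by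
      have := DFunLike.congr_fun h a
      exact this
    apply ZMod.injective_stdAddChar
    rw [h1]
    simp
  · intro h
    ext a
    show ZMod.stdAddChar (w k a) = (1 : ℂ)
    rw [h]
    simp

theorem cw_finite (w : ℤ →₀ (A →+ ZMod p)) : {k | cw w k ≠ 1}.Finite := by
  refine w.support.finite_toSet.subset fun k hk => ?_
  rw [Finset.mem_coe, Finsupp.mem_support_iff]
  intro h
  exact hk ((cw_eq_one w k).2 h)

theorem rank_cw (w : ℤ →₀ (A →+ ZMod p)) : rank (cw w) = w.support.card := by
  have : {k | cw w k ≠ 1} = (w.support : Set ℤ) := by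
    ext k
    simp [cw_eq_one]
  rw [rank, this, Set.ncard_coe_finset]

theorem chi_cw (w : ℤ →₀ (A →+ ZMod p)) (x : ℤ → A) :
    chi (cw w) x = ZMod.stdAddChar (pair w x) := by
  have hC : ∀ k, cw w k ≠ 1 → k ∈ w.support := fun k hk => by
    rw [Finsupp.mem_support_iff]
    intro h
    exact hk ((cw_eq_one w k).2 h)
  rw [chi_eq_prod hC, pair]
  generalize w.support = s
  classical
  induction s using Finset.induction_on with
  | empty => simp
  | insert a s ha ih =>
    rw [Finset.prod_insert ha, Finset.sum_insert ha, AddChar.map_add_eq_mul, ih]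
    rfl

/-- A character killed by `p` comes from a functional. -/
theorem exists_functional {ψ : AddChar A ℂ} (hψ : ψ ^ p = 1) :
    ∃ h : A →+ ZMod p, (ZMod.stdAddChar (N := p)).compAddMonoidHom h = ψ := by
  have h1 : ∀ a, ∃ j : ZMod p, ZMod.stdAddChar j = ψ a := by
    intro a
    have h2 : ψ a ^ p = 1 := by
      have := DFunLike.congr_fun hψ a
      rw [AddChar.pow_apply] at this
      exact this
    have hne : ψ a ≠ 0 := by
      intro h
      rw [h, zero_pow (NeZero.ne p)] at h2
      exact zero_ne_one h2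
    have h3 : Units.mk0 (ψ a) hne ∈ rootsOfUnity p ℂ := by
      rw [mem_rootsOfUnity]
      ext
      simpa using h2
    obtain ⟨i, _, hi⟩ := (Complex.mem_rootsOfUnity p _).1 h3
    refine ⟨((i : ℤ) : ZMod p), ?_⟩
    rw [ZMod.stdAddChar_coe]
    rw [Units.val_mk0] at hi
    rw [← hi]
    congr 1
    push_cast
    ring
  choose j hj using h1
  refine ⟨⟨⟨j, ?_⟩, ?_⟩, ?_⟩
  · apply ZMod.injective_stdAddChar
    rw [hj, AddChar.map_zero_eq_one, AddChar.map_zero_eq_one]
  · intro a b
    apply ZMod.injective_stdAddChar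
    show ZMod.stdAddChar (j (a + b)) = ZMod.stdAddChar (j a + j b)
    rw [AddChar.map_add_eq_mul, hj, hj, hj, AddChar.map_add_eq_mul]
  · ext a
    exact hj a

end torsion

/-- Every non trivial character has a power coming from a functional. -/
theorem exists_torsion [Finite A] {c : ℤ → AddChar A ℂ} (hc : {k | c k ≠ 1}.Finite)
    (hc1 : c ≠ 1) : ∃ (p : ℕ) (_ : Fact p.Prime) (m : ℕ) (w : ℤ →₀ (A →+ ZMod p)),
      w ≠ 0 ∧ cw w = c ^ m := by
  classical
  have hfin : c ^ (Nat.card A) = 1 := by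
    funext k
    ext a
    rw [Pi.pow_apply, AddChar.pow_apply, ← AddChar.map_nsmul_eq_pow]
    have : Nat.card A • a = 0 := by
      have := card_nsmul_eq_zero' (x := a)
      exact this
    rw [this, AddChar.map_zero_eq_one]
    rfl
  have hpos : 0 < Nat.card A := Nat.card_pos
  have hord : 0 < orderOf c := orderOf_pos_iff.2 (isOfFinOrder_iff_pow_eq_one.2 ⟨_, hpos, hfin⟩)
  have hord1 : orderOf c ≠ 1 := fun h => hc1 (orderOf_eq_one_iff.1 h)
  set p := (orderOf c).minFac with hp
  have hprime : p.Prime := Nat.minFac_prime hord1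
  have : Fact p.Prime := ⟨hprime⟩
  obtain ⟨m, hm⟩ := (orderOf c).minFac_dvd
  have hm0 : 0 < m := by
    rcases Nat.eq_zero_or_pos m with h | h
    · rw [h, mul_zero] at hm; omega
    · exact h
  have hcm : c ^ m ≠ 1 := by
    intro h
    have h1 := orderOf_dvd_of_pow_eq_one h
    have h2 := Nat.le_of_dvd hm0 h1
    have h3 : 2 ≤ p := hprime.two_le
    have h4 : p * m = orderOf c := hm.symm
    nlinarith
  have hcmp : ∀ k, (c ^ m) k ^ p = 1 := by
    intro k
    have h1 : (c ^ m) ^ p = 1 := by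
      rw [← pow_mul, mul_comm, ← hm, pow_orderOf_eq_one]
    exact congrFun h1 k
  choose h hh using fun k => exists_functional (p := p) (hcmp k)
  have hsupp : {k | h k ≠ 0}.Finite := by
    refine hc.subset fun k hk => ?_
    intro hck
    apply hk
    have h1 : (c ^ m) k = 1 := by
      rw [Pi.pow_apply, hck, one_pow]
    ext a
    apply ZMod.injective_stdAddChar
    have h2 := DFunLike.congr_fun (hh k) a
    rw [h1] at h2
    show ZMod.stdAddChar (h k a) = ZMod.stdAddChar ((0 : A →+ ZMod p) a)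
    rw [AddMonoidHom.zero_apply, AddChar.map_zero_eq_one]
    exact h2
  set w : ℤ →₀ (A →+ ZMod p) := Finsupp.onFinset hsupp.toFinset h
    (fun k hk => hsupp.mem_toFinset.2 hk) with hw
  have hcw : cw w = c ^ m := funext fun k => hh k
  refine ⟨p, ‹_›, m, w, ?_, hcw⟩
  intro h0
  apply hcm
  rw [← hcw]
  funext k
  exact (cw_eq_one w k).2 (by rw [h0]; rfl)

end Pool.Agent.Q171.CA
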