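import Pool.Agent.Q171.CA.Power

/-!
# Automorphisms of the module of finitely supported sequences
-/

open WithZero Filter

namespace Pool.Agent.Q171.CA

set_option linter.unusedSectionVars false

section linear

/-- Factorisation of linear maps over a field. -/
theorem exists_factor {K A V L : Type} [Field K] [AddCommGroup A] [Module K A] [AddCommGroup V]
    [Module K V] [AddCommGroup L] [Module K L] (φ : A →ₗ[K] V) (π : A →ₗ[K] L)
    (h : LinearMap.ker φ ≤ LinearMap.ker π) : ∃ θ : V →ₗ[K] L, ∀ a, θ (φ a) = π a := by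
  obtain ⟨θ, hθ⟩ := LinearMap.exists_extend
    (((LinearMap.ker φ).liftQ π h) ∘ₗ (φ.quotKerEquivRange.symm : LinearMap.range φ →ₗ[K] _))
  refine ⟨θ, fun a => ?_⟩
  have h1 := LinearMap.congr_fun hθ ⟨φ a, LinearMap.mem_range_self φ a⟩
  simp only [LinearMap.comp_apply, Submodule.subtype_apply] at h1
  rw [h1]
  have h2 : φ.quotKerEquivRange.symm ⟨φ a, LinearMap.mem_range_self φ a⟩
      = (LinearMap.ker φ).mkQ a := by
    rw [LinearEquiv.symm_apply_eq]
    rfl
  show (LinearMap.ker φ).liftQ π h (φ.quotKerEquivRange.symm _) = _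
  rw [h2]
  simp

end linear

section iota

variable {k : Type} [Field k] {W : Type} [AddCommGroup W] [Module k W] [Module.Finite k W]

/-- The shift. -/
noncomputable def sh (b : ℤ) : (ℤ →₀ W) →ₗ[k] (ℤ →₀ W) := Finsupp.lmapDomain W k (fun n => n + b)

theorem sh_single (b n : ℤ) (h : W) : sh (k := k) b (Finsupp.single n h)
    = Finsupp.single (n + b) h := by
  simp [sh]

/-- Formal Laurent polynomials with vector coefficients. -/
noncomputable def iota : (ℤ →₀ W) →ₗ[k] (Fin (Module.finrank k W) → RatFunc k) :=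
  Finsupp.lsum k (fun n => LinearMap.pi fun i =>
    (LinearMap.mulLeft k ((RatFunc.X : RatFunc k) ^ n)) ∘ₗ (Algebra.linearMap k (RatFunc k)) ∘ₗ
      ((Module.finBasis k W).coord i))

theorem iota_single (n : ℤ) (h : W) (i) : iota (k := k) (Finsupp.single n h) i
    = RatFunc.X ^ n * algebraMap k (RatFunc k) ((Module.finBasis k W).coord i h) := by
  simp [iota]

theorem iota_apply (w : ℤ →₀ W) (i) : iota (k := k) w i = ∑ n ∈ w.support,
    RatFunc.X ^ n * algebraMap k (RatFunc k) ((Module.finBasis k W).coord i (w n)) := by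
  simp [iota, Finsupp.lsum_apply, Finsupp.sum]

theorem iota_sh (b : ℤ) (w : ℤ →₀ W) :
    iota (k := k) (sh (k := k) b w) = (RatFunc.X : RatFunc k) ^ b • iota w := by
  have hX : (RatFunc.X : RatFunc k) ≠ 0 := RatFunc.X_ne_zero
  induction w using Finsupp.induction_linear with
  | zero => simp
  | add f g hf hg => rw [map_add, map_add, hf, hg, map_add, smul_add]
  | single n h =>
    ext i
    rw [sh_single, iota_single, Pi.smul_apply, iota_single, smul_eq_mul, ← mul_assoc,
      ← zpow_add₀ hX, add_comm]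

/-- Clearing the denominators. -/
theorem iota_poly (w : ℤ →₀ W) : ∃ (s : ℕ), (∀ n ∈ w.support, 0 ≤ n + s) ∧
    ∀ s' : ℕ, s ≤ s' → ∀ i, (RatFunc.X : RatFunc k) ^ s' * iota (k := k) w i
      = algebraMap (Polynomial k) (RatFunc k) (∑ n ∈ w.support,
        Polynomial.monomial (n + s').toNat ((Module.finBasis k W).coord i (w n))) := by
  have hX : (RatFunc.X : RatFunc k) ≠ 0 := RatFunc.X_ne_zero
  refine ⟨∑ n ∈ w.support, n.natAbs, fun n hn => ?_, fun s' hs' i => ?_⟩
  · have h1 : n.natAbs ≤ ∑ n ∈ w.support, n.natAbs :=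
      Finset.single_le_sum (f := fun n : ℤ => n.natAbs) (fun _ _ => Nat.zero_le _) hn
    have h2 : (n.natAbs : ℤ) ≤ ((∑ n ∈ w.support, n.natAbs : ℕ) : ℤ) := by exact_mod_cast h1
    omega
  · rw [iota_apply, Finset.mul_sum, map_sum]
    refine Finset.sum_congr rfl fun n hn => ?_
    have h1 : n.natAbs ≤ ∑ n ∈ w.support, n.natAbs :=
      Finset.single_le_sum (f := fun n : ℤ => n.natAbs) (fun _ _ => Nat.zero_le _) hn
    have h3 : ((n + s').toNat : ℤ) = n + s' := Int.toNat_of_nonneg (by omega)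
    rw [← mul_assoc, ← zpow_natCast, ← zpow_add₀ hX, ← Polynomial.C_mul_X_pow_eq_monomial,
      map_mul, map_pow, RatFunc.algebraMap_X, RatFunc.algebraMap_C, ← zpow_natCast, h3,
      RatFunc.algebraMap_eq_C, mul_comm, add_comm]

theorem iota_injective : Function.Injective (iota (k := k) (W := W)) := by
  rw [injective_iff_map_eq_zero]
  intro w hw
  obtain ⟨s, hs, h⟩ := iota_poly (k := k) w
  ext n
  rw [Finsupp.zero_apply]
  by_cases hn : n ∈ w.support
  · refine (Module.finBasis k W).ext_elem fun i => ?_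
    have h1 := h s le_rfl i
    rw [hw, Pi.zero_apply, mul_zero] at h1
    have h2 : (∑ n ∈ w.support, Polynomial.monomial (n + (s : ℤ)).toNat
        ((Module.finBasis k W).coord i (w n))) = 0 := by
      apply RatFunc.algebraMap_injective k
      rw [← h1, map_zero]
    have h3 := congrArg (fun P : Polynomial k => P.coeff (n + (s : ℤ)).toNat) h2
    simp only [Polynomial.finsetSum_coeff, Polynomial.coeff_zero] at h3
    rw [Finset.sum_eq_single n] at h3
    · rw [Polynomial.coeff_monomial, if_pos rfl] at h3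
      rw [map_zero, Finsupp.zero_apply]
      exact h3
    · intro n' hn' hne
      rw [Polynomial.coeff_monomial, if_neg]
      intro heq
      have e1 := hs n hn
      have e2 := hs n' hn'
      omega
    · intro h; exact absurd hn h
  · exact Finsupp.notMem_support_iff.1 hn

theorem iota_surj (P : Fin (Module.finrank k W) → Polynomial k) : ∃ w : ℤ →₀ W,
    iota (k := k) w = fun i => algebraMap (Polynomial k) (RatFunc k) (P i) := by
  classical
  refine ⟨∑ i, (P i).sum (fun j c => Finsupp.single (j : ℤ) (c • (Module.finBasis k W) i)), ?_⟩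
  ext i
  rw [map_sum, Finset.sum_apply, Finset.sum_eq_single i]
  · rw [Polynomial.sum_def, map_sum, Finset.sum_apply]
    conv_rhs => rw [(P i).as_sum_support_C_mul_X_pow, map_sum]
    refine Finset.sum_congr rfl fun j _ => ?_
    rw [iota_single, map_smul, Module.Basis.coord_apply, Module.Basis.repr_self,
      Finsupp.single_eq_same, smul_eq_mul, mul_one, map_mul, map_pow, RatFunc.algebraMap_X,
      RatFunc.algebraMap_C, RatFunc.algebraMap_eq_C, zpow_natCast, mul_comm]
  · intro i' _ hne
    rw [Polynomial.sum_def, map_sum, Finset.sum_apply]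
    refine Finset.sum_eq_zero fun j _ => ?_
    rw [iota_single, map_smul]
    simp [hne]
  · intro h; exact absurd (Finset.mem_univ _) h

/-- The extension of an endomorphism to the rational function field. -/
noncomputable def ext (T : (ℤ →₀ W) →ₗ[k] (ℤ →₀ W)) :
    Module.End (RatFunc k) (Fin (Module.finrank k W) → RatFunc k) :=
  (Pi.basisFun (RatFunc k) (Fin (Module.finrank k W))).constr (RatFunc k)
    (fun i => iota (k := k) (T (Finsupp.single 0 ((Module.finBasis k W) i))))

theorem ext_iota {T : (ℤ →₀ W) →ₗ[k] (ℤ →₀ W)}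
    (hT : ∀ b w, T (sh (k := k) b w) = sh (k := k) b (T w)) (w : ℤ →₀ W) :
    ext T (iota (k := k) w) = iota (k := k) (T w) := by
  induction w using Finsupp.induction_linear with
  | zero => simp
  | add f g hf hg => rw [map_add, map_add, hf, hg, map_add, map_add]
  | single n h =>
    have e1 : Finsupp.single n h = sh (k := k) n (Finsupp.single 0 h) := by
      rw [sh_single, zero_add]
    rw [e1, hT, iota_sh, iota_sh, map_smul]
    congr 1
    have e2 : iota (k := k) (Finsupp.single (0 : ℤ) h)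
        = fun i => algebraMap k (RatFunc k) ((Module.finBasis k W).coord i h) := by
      ext i
      rw [iota_single, zpow_zero, one_mul]
    have e3 : (Finsupp.single (0 : ℤ) h : ℤ →₀ W) = ∑ i, (Module.finBasis k W).coord i h •
        Finsupp.single 0 ((Module.finBasis k W) i) := by
      have h1 := (Module.finBasis k W).sum_repr h
      conv_lhs => rw [← h1, ← Finsupp.singleAddHom_apply, map_sum]
      refine Finset.sum_congr rfl fun i _ => ?_
      rw [Finsupp.singleAddHom_apply, ← Finsupp.smul_single]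
      rfl
    rw [e2]
    conv_rhs => rw [e3]
    rw [map_sum, map_sum]
    unfold ext
    rw [Module.Basis.constr_apply_fintype]
    refine Finset.sum_congr rfl fun i _ => ?_
    rw [map_smul, map_smul]
    rw [Pi.basisFun_equivFun, LinearEquiv.refl_apply, algebraMap_smul]

theorem ext_mul {T T' : (ℤ →₀ W) →ₗ[k] (ℤ →₀ W)}
    (hT : ∀ b w, T (sh (k := k) b w) = sh (k := k) b (T w))
    (h : ∀ w, T (T' w) = w) : ext T * ext T' = 1 := by
  refine (Pi.basisFun (RatFunc k) (Fin (Module.finrank k W))).ext fun i => ?_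
  rw [Module.End.mul_apply, Module.End.one_apply]
  have h1 : ext T' ((Pi.basisFun (RatFunc k) (Fin (Module.finrank k W))) i)
      = iota (k := k) (T' (Finsupp.single 0 ((Module.finBasis k W) i))) := by
    unfold ext
    rw [Module.Basis.constr_basis]
  rw [h1, ext_iota hT, h]
  ext j
  rw [iota_single, zpow_zero, one_mul, Pi.basisFun_apply]
  by_cases hij : i = j
  · subst hij; simp
  · simp [hij, Ne.symm hij]

/-- Integrality after multiplication by a power of the variable. -/
theorem ext_integral (T : (ℤ →₀ W) →ₗ[k] (ℤ →₀ W)) : ∃ (s : ℕ) (q : Polynomial (Polynomial k)),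
    q.Monic ∧ Polynomial.aeval ((RatFunc.X : RatFunc k) ^ s • ext T)
      (q.map (algebraMap (Polynomial k) (RatFunc k))) = 0 := by
  classical
  have h1 : ∀ i, ∃ (s : ℕ), ∀ s' : ℕ, s ≤ s' → ∀ j, ∃ P : Polynomial k,
      algebraMap (Polynomial k) (RatFunc k) P = (RatFunc.X : RatFunc k) ^ s' *
        iota (k := k) (T (Finsupp.single 0 ((Module.finBasis k W) i))) j := by
    intro i
    obtain ⟨s, _, h⟩ := iota_poly (k := k) (T (Finsupp.single 0 ((Module.finBasis k W) i)))
    exact ⟨s, fun s' hs' j => ⟨_, (h s' hs' j).symm⟩⟩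
  choose s hs using h1
  set S := ∑ i, s i with hS
  have h2 : ∀ i, s i ≤ S := fun i => Finset.single_le_sum (f := s) (fun _ _ => Nat.zero_le _)
    (Finset.mem_univ i)
  choose P hP using fun i j => hs i S (h2 i) j
  set M₁ : Matrix (Fin (Module.finrank k W)) (Fin (Module.finrank k W)) (Polynomial k) :=
    Matrix.of fun j i => P i j with hM₁
  have hM : (algebraMap (Polynomial k) (RatFunc k)).mapMatrix M₁
      = LinearMap.toMatrix' ((RatFunc.X : RatFunc k) ^ S • ext T) := by
    ext j i
    rw [RingHom.mapMatrix_apply, Matrix.map_apply, hM₁, Matrix.of_apply, hP,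
      LinearMap.toMatrix'_apply, LinearMap.smul_apply, Pi.smul_apply, smul_eq_mul]
    congr 1
    have h3 : ext T (Pi.basisFun (RatFunc k) (Fin (Module.finrank k W)) i)
        = iota (k := k) (T (Finsupp.single 0 ((Module.finBasis k W) i))) := by
      unfold ext
      rw [Module.Basis.constr_basis]
    rw [Pi.basisFun_apply] at h3
    rw [← h3]
  refine ⟨S, M₁.charpoly, M₁.charpoly_monic, ?_⟩
  rw [← Matrix.charpoly_map]
  have h4 : (M₁.map (algebraMap (Polynomial k) (RatFunc k)))
      = LinearMap.toMatrix' ((RatFunc.X : RatFunc k) ^ S • ext T) := hM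
  rw [h4]
  have h5 := Matrix.aeval_self_charpoly
    (LinearMap.toMatrix' ((RatFunc.X : RatFunc k) ^ S • ext T))
  have h6 := congrArg (Matrix.toLinAlgEquiv' (R := RatFunc k)) h5
  rw [map_zero, ← Polynomial.aeval_algHom_apply] at h6
  have h7 : Matrix.toLinAlgEquiv' (LinearMap.toMatrix' ((RatFunc.X : RatFunc k) ^ S • ext T))
      = (RatFunc.X : RatFunc k) ^ S • ext T :=
    Matrix.toLin'_toMatrix' ((RatFunc.X : RatFunc k) ^ S • ext T)
  rw [h7] at h6
  exact h6

theorem ext_pow_iota {T : (ℤ →₀ W) →ₗ[k] (ℤ →₀ W)}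
    (hT : ∀ b w, T (sh (k := k) b w) = sh (k := k) b (T w)) (n : ℕ) (w : ℤ →₀ W) :
    (ext T ^ n) (iota (k := k) w) = iota (k := k) ((T ^ n) w) := by
  induction n generalizing w with
  | zero => simp
  | succ n ih => rw [pow_succ, pow_succ, Module.End.mul_apply, Module.End.mul_apply,
      ext_iota hT, ih]

theorem iota_sum (w : ℤ →₀ W) : iota (k := k) w = ∑ n ∈ w.support,
    (RatFunc.X : RatFunc k) ^ n • iota (k := k) (Finsupp.single 0 (w n)) := by
  ext i
  rw [iota_apply, Finset.sum_apply]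
  refine Finset.sum_congr rfl fun n _ => ?_
  rw [Pi.smul_apply, iota_single, zpow_zero, one_mul, smul_eq_mul]

theorem core_aux [Finite W] {T T' : (ℤ →₀ W) →ₗ[k] (ℤ →₀ W)}
    (hT : ∀ b w, T (sh (k := k) b w) = sh (k := k) b (T w))
    (hT' : ∀ b w, T' (sh (k := k) b w) = sh (k := k) b (T' w))
    (h1 : ∀ w, T (T' w) = w)
    {A : Type} [CommRing A] [Algebra (RatFunc k) A] [FiniteDimensional (RatFunc k) A]
    (ψ : A →ₐ[RatFunc k] Module.End (RatFunc k) (Fin (Module.finrank k W) → RatFunc k))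
    (hψ : Function.Injective ψ) (τ τ' : A) (hτ : ψ τ = ext T) (hτ' : ψ τ' = ext T')
    {v : ℤ →₀ W} (hv : v ≠ 0) {r : ℕ} (hr : {n : ℕ | ((T ^ n) v).support.card ≤ r}.Infinite) :
    ∃ w : ℤ →₀ W, w ≠ 0 ∧ ∃ N : ℕ, 0 < N ∧ ∃ b : ℤ, (T ^ N) w = sh (k := k) b w := by
  classical
  have hττ : τ * τ' = 1 := by
    apply hψ
    rw [map_mul, hτ, hτ', map_one, ext_mul hT h1]
  have hιv : iota (k := k) v ≠ 0 := fun h => hv (iota_injective (k := k) (by rw [h, map_zero]))
  let I : Ideal A :=
    { carrier := {a | ψ a (iota (k := k) v) = 0}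
      add_mem' := fun {a b} ha hb => by
        show ψ (a + b) (iota (k := k) v) = 0
        have ha' : ψ a (iota (k := k) v) = 0 := ha
        have hb' : ψ b (iota (k := k) v) = 0 := hb
        rw [map_add, LinearMap.add_apply, ha', hb', add_zero]
      zero_mem' := by
        show ψ 0 (iota (k := k) v) = 0
        rw [map_zero, LinearMap.zero_apply]
      smul_mem' := fun c a ha => by
        show ψ (c * a) (iota (k := k) v) = 0
        have ha' : ψ a (iota (k := k) v) = 0 := ha
        rw [map_mul, Module.End.mul_apply, ha', map_zero] }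
  have hI : I ≠ ⊤ := by
    rw [Ideal.ne_top_iff_one]
    intro h
    have h' : ψ 1 (iota (k := k) v) = 0 := h
    rw [map_one, Module.End.one_apply] at h'
    exact hιv h'
  obtain ⟨𝔪, hmax, hle⟩ := Ideal.exists_le_maximal I hI
  letI : Field (A ⧸ 𝔪) := Ideal.Quotient.field 𝔪
  letI : Algebra (Polynomial k) (A ⧸ 𝔪) :=
    ((algebraMap (RatFunc k) (A ⧸ 𝔪)).comp (algebraMap (Polynomial k) (RatFunc k))).toAlgebra
  haveI : IsScalarTower (Polynomial k) (RatFunc k) (A ⧸ 𝔪) :=
    IsScalarTower.of_algebraMap_eq (fun _ => rfl)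
  haveI : FiniteDimensional (RatFunc k) (A ⧸ 𝔪) :=
    Module.Finite.of_surjective (Ideal.Quotient.mkₐ (RatFunc k) 𝔪).toLinearMap
      Ideal.Quotient.mk_surjective
  set t := algebraMap (RatFunc k) (A ⧸ 𝔪) RatFunc.X with ht
  set mk := Ideal.Quotient.mkₐ (RatFunc k) 𝔪 with hmk
  set lam := mk τ with hlam
  have hll : lam * mk τ' = 1 := by rw [hlam, ← map_mul, hττ, map_one]
  have hlam0 : lam ≠ 0 := left_ne_zero_of_mul_eq_one hll
  have hinv : mk τ' = lam⁻¹ := eq_inv_of_mul_eq_one_right hll
  -- integrality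
  have hint : ∀ (S : (ℤ →₀ W) →ₗ[k] (ℤ →₀ W)) (σ : A), ψ σ = ext S →
      ∃ s : ℕ, IsIntegral (Polynomial k) (t ^ s * mk σ) := by
    intro S σ hσ
    obtain ⟨s, q, hq, haev⟩ := ext_integral (k := k) S
    refine ⟨s, q, hq, ?_⟩
    have e1 : Polynomial.aeval ((RatFunc.X : RatFunc k) ^ s • σ)
        (q.map (algebraMap (Polynomial k) (RatFunc k))) = 0 := by
      apply hψ
      rw [← Polynomial.aeval_algHom_apply, map_smul, hσ, haev, map_zero]
    have e2 := congrArg mk e1
    rw [← Polynomial.aeval_algHom_apply, map_zero, map_smul, Algebra.smul_def, map_pow,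
      ← ht, Polynomial.aeval_map_algebraMap] at e2
    exact e2
  obtain ⟨s, hs⟩ := hint T τ hτ
  obtain ⟨s', hs'⟩ := hint T' τ' hτ'
  rw [hinv] at hs'
  obtain ⟨b, hb0, hb1⟩ := norm_monomial hlam0 hs hs'
  -- the linear map
  obtain ⟨θ, hθ⟩ := exists_factor (K := RatFunc k)
    ((LinearMap.applyₗ (iota (k := k) v)) ∘ₗ ψ.toLinearMap) mk.toLinearMap (by
      intro a ha
      rw [LinearMap.mem_ker] at ha ⊢
      have h3 : a ∈ I := ha
      exact Ideal.Quotient.eq_zero_iff_mem.2 (hle h3))
  have hθ' : ∀ n : ℕ, lam ^ n = θ (iota (k := k) ((T ^ n) v)) := by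
    intro n
    have := hθ (τ ^ n)
    rw [LinearMap.comp_apply, LinearMap.applyₗ_apply_apply, AlgHom.toLinearMap_apply,
      AlgHom.toLinearMap_apply, map_pow, map_pow, hτ, ext_pow_iota hT] at this
    exact this.symm
  obtain ⟨N, hN, b', hb'⟩ := power (W := W)
    (fun h => θ (iota (k := k) (Finsupp.single (0 : ℤ) h))) (by simp) hlam0 hb0 hb1 r (by
      refine hr.mono fun n hn => ?_
      refine ⟨((T ^ n) v).support, fun j => ((T ^ n) v) j, hn, ?_⟩
      rw [hθ' n, iota_sum, map_sum]
      refine Finset.sum_congr rfl fun j _ => ?_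
      rw [map_smul, Algebra.smul_def, map_zpow₀])
  -- a zero divisor
  set a : A := τ ^ N - algebraMap (RatFunc k) A ((RatFunc.X : RatFunc k) ^ b') with ha
  have ham : a ∈ 𝔪 := by
    rw [← Ideal.Quotient.eq_zero_iff_mem]
    have : mk a = 0 := by
      rw [ha, map_sub, map_pow, AlgHom.commutes, map_zpow₀, ← ht, ← hb', hlam, sub_self]
    exact this
  obtain ⟨c, hc0, hac⟩ : ∃ c : A, c ≠ 0 ∧ a * c = 0 := by
    by_contra hcon
    push Not at hcon
    have hinj : Function.Injective (LinearMap.mulLeft (RatFunc k) a) := by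
      rw [injective_iff_map_eq_zero]
      intro c hc
      by_contra hc0
      exact hcon c hc0 hc
    obtain ⟨c, hc⟩ := (LinearMap.injective_iff_surjective.1 hinj) 1
    have h3 : a * c = 1 := hc
    apply hmax.ne_top
    rw [Ideal.eq_top_iff_one, ← h3]
    exact 𝔪.mul_mem_right c ham
  obtain ⟨u, hu⟩ : ∃ u, ψ c u ≠ 0 := by
    by_contra hcon
    push Not at hcon
    apply hc0
    apply hψ
    rw [map_zero]
    exact LinearMap.ext hcon
  set y := ψ c u with hy
  have hTy : (ext T ^ N) y = (RatFunc.X : RatFunc k) ^ b' • y := by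
    have h3 : ψ (a * c) u = 0 := by rw [hac, map_zero, LinearMap.zero_apply]
    rw [map_mul, Module.End.mul_apply, ← hy, ha, map_sub, map_pow, hτ, AlgHom.commutes,
      LinearMap.sub_apply, Module.algebraMap_end_apply, sub_eq_zero] at h3
    exact h3
  obtain ⟨d, hd⟩ := IsLocalization.exist_integer_multiples (nonZeroDivisors (Polynomial k))
    Finset.univ y
  choose P hP using fun i => hd i (Finset.mem_univ i)
  obtain ⟨w, hw⟩ := iota_surj (W := W) P
  have hw' : iota (k := k) w = algebraMap (Polynomial k) (RatFunc k) (d : Polynomial k) • y := by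
    rw [hw]
    ext i
    rw [hP i, Pi.smul_apply, smul_eq_mul, Algebra.smul_def]
  have hd0 : algebraMap (Polynomial k) (RatFunc k) (d : Polynomial k) ≠ 0 := by
    have := nonZeroDivisors.coe_ne_zero d
    intro h
    exact this (RatFunc.algebraMap_injective k (by rw [h, map_zero]))
  refine ⟨w, ?_, N, hN, b', ?_⟩
  · rintro rfl
    rw [map_zero] at hw'
    exact (smul_ne_zero hd0 hu) hw'.symm
  · apply iota_injective (k := k)
    rw [← ext_pow_iota hT, iota_sh, hw', map_smul, hTy, smul_comm]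

theorem core [Finite W] {T T' : (ℤ →₀ W) →ₗ[k] (ℤ →₀ W)}
    (hT : ∀ b w, T (sh (k := k) b w) = sh (k := k) b (T w))
    (hT' : ∀ b w, T' (sh (k := k) b w) = sh (k := k) b (T' w))
    (h1 : ∀ w, T (T' w) = w) (h2 : ∀ w, T' (T w) = w)
    {v : ℤ →₀ W} (hv : v ≠ 0) {r : ℕ} (hr : {n : ℕ | ((T ^ n) v).support.card ≤ r}.Infinite) :
    ∃ w : ℤ →₀ W, w ≠ 0 ∧ ∃ N : ℕ, 0 < N ∧ ∃ b : ℤ, (T ^ N) w = sh (k := k) b w := by
  have hcomm : ∀ a ∈ ({ext T, ext T'} : Set _), ∀ b ∈ ({ext T, ext T'} : Set _),
      a * b = b * a := by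
    rintro a (rfl | rfl) b (rfl | rfl)
    · rfl
    · rw [ext_mul hT h1, ext_mul hT' h2]
    · rw [ext_mul hT h1, ext_mul hT' h2]
    · rfl
  letI : CommRing (Algebra.adjoin (RatFunc k) ({ext T, ext T'} : Set _)) :=
    Algebra.adjoinCommRingOfComm (RatFunc k) hcomm
  exact core_aux hT hT' h1 (Algebra.adjoin (RatFunc k) ({ext T, ext T'} : Set _)).val
    Subtype.val_injective ⟨ext T, Algebra.subset_adjoin (by simp)⟩
    ⟨ext T', Algebra.subset_adjoin (by simp)⟩ rfl rfl hv hr

end iota

end Pool.Agent.Q171.CA
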