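import Mathlib

/-!
# Abelian cellular automata: randomization
-/

open MeasureTheory Filter Topology

namespace Pool.Agent.Q171.CA

/-- The shift. -/
def shift {A : Type} (x : ℤ → A) : ℤ → A := fun i => x (i + 1)

/-- An abelian cellular automaton: a continuous endomorphism commuting with the shift. -/
structure IsAbelianCA {A : Type} [AddCommGroup A] [TopologicalSpace A]
    (F : (ℤ → A) →+ (ℤ → A)) : Prop where
  cont : Continuous F
  comm : ∀ x, F (shift x) = shift (F x)

/-- The number of non trivial cells of a character. -/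
noncomputable def rank {A : Type} [AddCommGroup A] (c : ℤ → AddChar A ℂ) : ℕ :=
  {k | c k ≠ 1}.ncard

/-- The character given by the characters of the cells. -/
noncomputable def chi {A : Type} [AddCommGroup A] (c : ℤ → AddChar A ℂ) (x : ℤ → A) : ℂ :=
  ∏ᶠ k, c k (x k)

/-- Harmonically mixing measures. -/
def HarmonicallyMixing {A : Type} [AddCommGroup A] [MeasurableSpace A]
    (μ : Measure (ℤ → A)) : Prop :=
  ∀ ε : ℝ, 0 < ε → ∃ R : ℕ, ∀ c : ℤ → AddChar A ℂ, {k | c k ≠ 1}.Finite → R < rank c →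
    ‖∫ x, chi c x ∂μ‖ < ε

/-- The uniform Bernoulli measure. -/
noncomputable def haar (A : Type) [Fintype A] [Nonempty A] [MeasurableSpace A] :
    Measure (ℤ → A) :=
  Measure.infinitePi (fun _ : ℤ => (PMF.uniformOfFintype A).toMeasure)

/-- Weak convergence of `F^t μ` to the uniform Bernoulli measure, `t` going along `l`. -/
def ConvergesAlong {A : Type} [Fintype A] [Nonempty A] [TopologicalSpace A]
    [MeasurableSpace A] (F : (ℤ → A) → (ℤ → A)) (μ : Measure (ℤ → A)) (l : Filter ℕ) : Prop :=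
  ∀ f : C(ℤ → A, ℝ), Tendsto (fun t : ℕ => ∫ x, f (F^[t] x) ∂μ) l (𝓝 (∫ x, f x ∂(haar A)))

/-- Strong randomization. -/
def StronglyRandomizing {A : Type} [AddCommGroup A] [Fintype A] [TopologicalSpace A]
    [MeasurableSpace A] (F : (ℤ → A) → (ℤ → A)) : Prop :=
  ∀ μ : Measure (ℤ → A), IsProbabilityMeasure μ → HarmonicallyMixing μ →
    ConvergesAlong F μ atTop

/-- Randomization in density. -/
def RandomizingInDensity {A : Type} [AddCommGroup A] [Fintype A] [TopologicalSpace A]
    [MeasurableSpace A] (F : (ℤ → A) → (ℤ → A)) : Prop :=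
  ∀ μ : Measure (ℤ → A), IsProbabilityMeasure μ → HarmonicallyMixing μ →
    ∃ D : Set ℕ, liminf (fun n : ℕ => ((D ∩ Set.Icc 0 n).ncard : ℝ) / n) atTop = 1 ∧
      ConvergesAlong F μ (atTop ⊓ 𝓟 D)

end Pool.Agent.Q171.CA
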