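import Pool.Agent.Q171.CA.Defs
import Pool.Agent.Q171.CA.Core

/-!
# The dual action
-/

open MeasureTheory Filter Topology

namespace Pool.Agent.Q171.CA

set_option linter.unusedSectionVars false

variable {A : Type} [AddCommGroup A] [TopologicalSpace A] [DiscreteTopology A]

/-- The shift by any integer. -/
theorem comm_zshift {F : (ℤ → A) →+ (ℤ → A)} (hF : IsAbelianCA F) (b : ℤ) (x : ℤ → A) :
    F (fun i => x (i + b)) = fun i => F x (i + b) := by
  induction b using Int.induction_on generalizing x with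
  | zero => simp
  | succ n ih =>
    have h1 : (fun i => x (i + (n + 1))) = shift (fun i => x (i + n)) := by
      funext i
      simp only [shift]
      congr 1
      ring
    rw [h1, hF.comm, ih]
    funext i
    simp only [shift]
    ring_nf
  | pred n ih =>
    have h1 : shift (fun i => x (i + (-n - 1))) = fun i => x (i + -n) := by
      funext i
      simp only [shift]
      congr 1
      ring
    have h2 := hF.comm (fun i => x (i + (-(n : ℤ) - 1)))
    rw [h1, ih] at h2
    funext i
    have h3 := congrFun h2 (i - 1)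
    simp only [shift] at h3
    rw [sub_add_cancel] at h3
    rw [← h3]
    ring_nf

/-- The window of an abelian cellular automaton. -/
theorem exists_window {F : (ℤ → A) →+ (ℤ → A)} (hF : IsAbelianCA F) :
    ∃ S : Finset ℤ, ∀ x : ℤ → A, (∀ i ∈ S, x i = 0) → F x 0 = 0 := by
  have h1 : IsOpen {x : ℤ → A | F x 0 = 0} := by
    have : Continuous (fun x => F x 0) := (continuous_apply 0).comp hF.cont
    exact (isOpen_discrete ({0} : Set A)).preimage this
  have h2 : {x : ℤ → A | F x 0 = 0} ∈ 𝓝 (0 : ℤ → A) := h1.mem_nhds (by simp)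
  rw [nhds_pi, Filter.mem_pi] at h2
  obtain ⟨I, hI, t, ht, hsub⟩ := h2
  refine ⟨hI.toFinset, fun x hx => ?_⟩
  apply hsub
  intro i hi
  have := hx i (hI.mem_toFinset.2 hi)
  rw [this]
  exact mem_of_mem_nhds (ht i)

/-- The coefficients. -/
noncomputable def coef (F : (ℤ → A) →+ (ℤ → A)) (i : ℤ) : A →+ A :=
  (Pi.evalAddMonoidHom (fun _ : ℤ => A) 0).comp (F.comp (AddMonoidHom.single (fun _ : ℤ => A) i))

/-- The local rule. -/
theorem local_rule {F : (ℤ → A) →+ (ℤ → A)} (hF : IsAbelianCA F) {S : Finset ℤ}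
    (hS : ∀ x : ℤ → A, (∀ i ∈ S, x i = 0) → F x 0 = 0) (x : ℤ → A) (k : ℤ) :
    F x k = ∑ i ∈ S, coef F i (x (k + i)) := by
  classical
  have h0 : ∀ x : ℤ → A, F x 0 = ∑ i ∈ S, coef F i (x i) := by
    intro x
    have h1 := hS (x - ∑ i ∈ S, Pi.single i (x i)) (by
      intro i hi
      rw [Pi.sub_apply, Finset.sum_apply, Finset.sum_eq_single i]
      · simp
      · intro j _ hj
        exact Pi.single_eq_of_ne hj.symm _
      · intro h; exact absurd hi h)
    rw [map_sub, Pi.sub_apply, sub_eq_zero, map_sum, Finset.sum_apply] at h1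
    rw [h1]
    rfl
  have h2 := comm_zshift hF k x
  have h3 := congrFun h2 0
  rw [zero_add] at h3
  rw [← h3, h0]
  refine Finset.sum_congr rfl fun i _ => ?_
  rw [add_comm]

section pairing

variable {p : ℕ} [Fact p.Prime]

/-- The pairing of finitely supported functionals with configurations. -/
noncomputable def pair (w : ℤ →₀ (A →+ ZMod p)) (x : ℤ → A) : ZMod p :=
  ∑ k ∈ w.support, w k (x k)

theorem pair_eq (w : ℤ →₀ (A →+ ZMod p)) (x : ℤ → A) :
    pair w x = w.sum (fun k h => h (x k)) := rfl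

theorem pair_single (k : ℤ) (h : A →+ ZMod p) (x : ℤ → A) :
    pair (Finsupp.single k h) x = h (x k) := by
  rw [pair_eq, Finsupp.sum_single_index]
  rfl

theorem pair_add (w w' : ℤ →₀ (A →+ ZMod p)) (x : ℤ → A) :
    pair (w + w') x = pair w x + pair w' x := by
  rw [pair_eq, pair_eq, pair_eq, Finsupp.sum_add_index]
  · intro _ _; rfl
  · intro _ _ _ _; rfl

theorem pair_sum {ι : Type} (s : Finset ι) (w : ι → (ℤ →₀ (A →+ ZMod p))) (x : ℤ → A) :
    pair (∑ i ∈ s, w i) x = ∑ i ∈ s, pair (w i) x := by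
  classical
  induction s using Finset.induction_on with
  | empty => simp [pair]
  | insert a s ha ih => rw [Finset.sum_insert ha, Finset.sum_insert ha, pair_add, ih]

theorem pair_Pi_single [DecidableEq ℤ] (w : ℤ →₀ (A →+ ZMod p)) (k : ℤ) (a : A) :
    pair w (Pi.single k a) = w k a := by
  rw [pair]
  by_cases hk : k ∈ w.support
  · rw [Finset.sum_eq_single k]
    · simp
    · intro j _ hj
      rw [Pi.single_eq_of_ne hj, map_zero]
    · intro h; exact absurd hk h
  · rw [Finset.sum_eq_zero]
    · rw [Finsupp.notMem_support_iff.1 hk]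
      rfl
    · intro j hj
      have : j ≠ k := fun h => hk (h ▸ hj)
      rw [Pi.single_eq_of_ne this, map_zero]

theorem pair_ext {w w' : ℤ →₀ (A →+ ZMod p)} (h : ∀ x, pair w x = pair w' x) : w = w' := by
  classical
  ext k a
  rw [← pair_Pi_single, ← pair_Pi_single, h]

/-- Composition with an endomorphism. -/
noncomputable def pre (φ : A →+ A) : (A →+ ZMod p) →ₗ[ZMod p] (A →+ ZMod p) where
  toFun h := h.comp φ
  map_add' _ _ := rfl
  map_smul' _ _ := rfl

/-- The dual of an abelian cellular automaton on functionals. -/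
noncomputable def dual (F : (ℤ → A) →+ (ℤ → A)) (S : Finset ℤ) :
    (ℤ →₀ (A →+ ZMod p)) →ₗ[ZMod p] (ℤ →₀ (A →+ ZMod p)) :=
  Finsupp.lsum (ZMod p) (fun k : ℤ =>
    (∑ i ∈ S, (Finsupp.lsingle (k + i)).comp (pre (coef F i))))

theorem dual_single (F : (ℤ → A) →+ (ℤ → A)) (S : Finset ℤ) (k : ℤ) (h : A →+ ZMod p) :
    dual F S (Finsupp.single k h) = ∑ i ∈ S, Finsupp.single (k + i) (h.comp (coef F i)) := by
  simp [dual, pre]

theorem dual_sh (F : (ℤ → A) →+ (ℤ → A)) (S : Finset ℤ) (b : ℤ) (w : ℤ →₀ (A →+ ZMod p)) :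
    dual F S (sh (k := ZMod p) b w) = sh (k := ZMod p) b (dual F S w) := by
  induction w using Finsupp.induction_linear with
  | zero => simp
  | add f g hf hg => rw [map_add, map_add, hf, hg, map_add, map_add]
  | single n h =>
    rw [dual_single, map_sum]
    simp only [sh, Finsupp.lmapDomain_apply, Finsupp.mapDomain_single]
    rw [dual_single]
    refine Finset.sum_congr rfl fun i _ => ?_
    congr 1
    ring

theorem pair_dual {F : (ℤ → A) →+ (ℤ → A)} (hF : IsAbelianCA F) {S : Finset ℤ}
    (hS : ∀ x : ℤ → A, (∀ i ∈ S, x i = 0) → F x 0 = 0) (w : ℤ →₀ (A →+ ZMod p)) (x : ℤ → A) :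
    pair (dual F S w) x = pair w (F x) := by
  induction w using Finsupp.induction_linear with
  | zero => simp [pair]
  | add f g hf hg => rw [map_add, pair_add, pair_add, hf, hg]
  | single n h =>
    rw [dual_single, pair_sum, pair_single, local_rule hF hS x n, map_sum]
    refine Finset.sum_congr rfl fun i _ => ?_
    rw [pair_single]
    rfl

theorem pair_dual_pow {F : (ℤ → A) →+ (ℤ → A)} (hF : IsAbelianCA F) {S : Finset ℤ}
    (hS : ∀ x : ℤ → A, (∀ i ∈ S, x i = 0) → F x 0 = 0) (n : ℕ) (w : ℤ →₀ (A →+ ZMod p))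
    (x : ℤ → A) : pair ((dual F S ^ n) w) x = pair w (F^[n] x) := by
  induction n generalizing w with
  | zero => rfl
  | succ n ih =>
    rw [pow_succ, Module.End.mul_apply, ih, pair_dual hF hS, Function.iterate_succ_apply']

end pairing

end Pool.Agent.Q171.CA
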