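import Pool.Agent.Q171.CA.Meas

/-!
# Reversible abelian cellular automata: density randomization is strong randomization
-/

open MeasureTheory Filter Topology

namespace Pool.Agent.Q171.CA

variable {A : Type} [AddCommGroup A] [Fintype A] [TopologicalSpace A] [DiscreteTopology A]
  [MeasurableSpace A] [BorelSpace A]

theorem infinite_of_density {D : Set ℕ}
    (h : liminf (fun n : ℕ => ((D ∩ Set.Icc 0 n).ncard : ℝ) / n) atTop = 1) : D.Infinite := by
  intro hD
  have h1 : Tendsto (fun n : ℕ => ((D ∩ Set.Icc 0 n).ncard : ℝ) / n) atTop (𝓝 0) := by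
    have h2 : Tendsto (fun n : ℕ => (D.ncard : ℝ) / n) atTop (𝓝 0) :=
      tendsto_const_div_atTop_nhds_zero_nat _
    refine squeeze_zero (fun n => by positivity) (fun n => ?_) h2
    have : (D ∩ Set.Icc 0 n).ncard ≤ D.ncard := Set.ncard_le_ncard Set.inter_subset_left hD
    gcongr
  rw [h1.liminf_eq] at h
  exact zero_ne_one h

theorem integral_itr {F : (ℤ → A) →+ (ℤ → A)} (hF : IsAbelianCA F) {c : ℤ → AddChar A ℂ}
    (hc : {k | c k ≠ 1}.Finite) (μ : Measure (ℤ → A)) (t : ℕ) :
    ∫ x, chi c (F^[t] x) ∂μ = ∫ x, chi (pull (itr F t) c hc) x ∂μ := by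
  refine integral_congr_ae (Eventually.of_forall fun x => ?_)
  show chi c (F^[t] x) = chi (pull (itr F t) c hc) x
  rw [(pull_prop (iterate_ca hF t) c hc).2 x, itr_apply]

theorem ranks_tend {F : (ℤ → A) →+ (ℤ → A)} (hF : IsAbelianCA F)
    (hb : Function.Bijective F) (hd : RandomizingInDensity F) {c : ℤ → AddChar A ℂ}
    (hc : {k | c k ≠ 1}.Finite) (hc1 : c ≠ 1) (R : ℕ) :
    {t : ℕ | rank (pull (itr F t) c hc) ≤ R}.Finite := by
  by_contra hinf
  obtain ⟨c', hc', hc1', C, hC⟩ := bounded_of_infinitely_often hF hb hc hc1 hinf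
  obtain ⟨D, hD, hconv⟩ := hd (Measure.infinitePi (fun _ : ℤ => half A)) inferInstance bern_mixing
  have hDinf := infinite_of_density hD
  set f : C(ℤ → A, ℝ) := ⟨fun x => (chi c' x).re, Complex.continuous_re.comp (chi_continuous hc')⟩
    with hf
  have h1 := hconv f
  have hint : ∀ μ : Measure (ℤ → A), IsFiniteMeasure μ → ∀ g : C(ℤ → A, ℂ), Integrable g μ :=
    fun μ _ g => (BoundedContinuousFunction.mkOfCompact g).integrable μ
  have h2 : ∫ x, f x ∂(haar A) = 0 := by
    haveI : IsProbabilityMeasure (haar A) := by unfold haar; infer_instance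
    have h3 := integral_re (hint (haar A) inferInstance (chiM c' hc'))
    have h4 : ∫ x, chiM c' hc' x ∂(haar A) = 0 := integral_haar hc' hc1'
    rw [h4] at h3
    exact h3.trans (by simp)
  have h5 : ∀ t : ℕ, (1 / 2 : ℝ) ^ C ≤ ∫ x, f (F^[t] x) ∂(Measure.infinitePi (fun _ : ℤ => half A)) := by
    intro t
    have hcont : Continuous (fun x => chi c' (F^[t] x)) :=
      (chi_continuous hc').comp (hF.cont.iterate t)
    have h6 := integral_re (hint (Measure.infinitePi (fun _ : ℤ => half A)) inferInstance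
      ⟨fun x => chi c' (F^[t] x), hcont⟩)
    have h7 : ∫ x, chi c' (F^[t] x) ∂(Measure.infinitePi (fun _ : ℤ => half A))
        = (1 / 2) ^ rank (pull (itr F t) c' hc') := by
      rw [integral_itr hF hc', integral_bern (pull_prop (iterate_ca hF t) c' hc').1]
    have h8 : ∫ x, f (F^[t] x) ∂(Measure.infinitePi (fun _ : ℤ => half A))
        = (1 / 2 : ℝ) ^ rank (pull (itr F t) c' hc') := by
      refine h6.trans ?_
      have h9 : ((∫ x, chi c' (F^[t] x) ∂(Measure.infinitePi (fun _ : ℤ => half A))) : ℂ)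
          = (((1 / 2 : ℝ) ^ rank (pull (itr F t) c' hc') : ℝ) : ℂ) := by
        rw [h7]; push_cast; ring
      show (∫ x, chi c' (F^[t] x) ∂(Measure.infinitePi (fun _ : ℤ => half A))).re = _
      rw [h9, Complex.ofReal_re]
    rw [h8]
    exact pow_le_pow_of_le_one (by norm_num) (by norm_num) (hC t)
  rw [h2] at h1
  have hpos : (0 : ℝ) < (1 / 2) ^ C := by positivity
  have h10 := h1.eventually (gt_mem_nhds hpos)
  rw [eventually_inf_principal, eventually_atTop] at h10
  obtain ⟨N, hN⟩ := h10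
  obtain ⟨t, htD, htN⟩ := hDinf.exists_gt N
  exact absurd (hN t htN.le htD) (not_lt.2 (h5 t))

theorem tendsto_chi {F : (ℤ → A) →+ (ℤ → A)} (hF : IsAbelianCA F)
    (hb : Function.Bijective F) (hd : RandomizingInDensity F) {μ : Measure (ℤ → A)}
    [IsProbabilityMeasure μ] (hμ : HarmonicallyMixing μ) {c : ℤ → AddChar A ℂ}
    (hc : {k | c k ≠ 1}.Finite) :
    Tendsto (fun t : ℕ => ∫ x, chi c (F^[t] x) ∂μ) atTop (𝓝 (∫ x, chi c x ∂(haar A))) := by
  haveI : IsProbabilityMeasure (haar A) := by unfold haar; infer_instance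
  by_cases hc1 : c = 1
  · have h1 : ∀ x : ℤ → A, chi c x = 1 := by
      intro x
      have h2 : ∀ k, c k ≠ 1 → k ∈ (∅ : Finset ℤ) := fun k hk => absurd (congrFun hc1 k) hk
      rw [chi_eq_prod h2]
      simp
    simp [h1]
  · rw [integral_haar hc hc1, Metric.tendsto_nhds]
    intro ε hε
    obtain ⟨R, hR⟩ := hμ ε hε
    have hfin := ranks_tend hF hb hd hc hc1 R
    rw [← Nat.cofinite_eq_atTop, Filter.eventually_cofinite]
    refine hfin.subset fun t ht => ?_
    by_contra hlt
    apply ht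
    have h2 : R < rank (pull (itr F t) c hc) := not_le.1 hlt
    rw [dist_zero_right, integral_itr hF hc]
    exact hR _ (pull_prop (iterate_ca hF t) c hc).1 h2

theorem main {F : (ℤ → A) →+ (ℤ → A)} (hF : IsAbelianCA F)
    (hb : Function.Bijective F) (hd : RandomizingInDensity F) : StronglyRandomizing F := by
  intro μ _ hμ f
  haveI : IsProbabilityMeasure (haar A) := by unfold haar; infer_instance
  have hint : ∀ μ : Measure (ℤ → A), IsFiniteMeasure μ → ∀ g : C(ℤ → A, ℂ), Integrable g μ :=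
    fun μ _ g => (BoundedContinuousFunction.mkOfCompact g).integrable μ
  have hcontt : ∀ t : ℕ, Continuous (F^[t]) := fun t => hF.cont.iterate t
  have hintt : ∀ (g : C(ℤ → A, ℂ)) (t : ℕ), Integrable (fun x => g (F^[t] x)) μ := fun g t =>
    hint μ inferInstance ⟨fun x => g (F^[t] x), g.continuous.comp (hcontt t)⟩
  -- the span of the characters
  have hspan : ∀ g ∈ Submodule.span ℂ (chars A),
      Tendsto (fun t : ℕ => ∫ x, g (F^[t] x) ∂μ) atTop (𝓝 (∫ x, g x ∂(haar A))) := by
    intro g hg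
    induction hg using Submodule.span_induction with
    | mem g hg =>
      obtain ⟨c, hc, hgc⟩ := hg
      simp only [hgc]
      exact tendsto_chi hF hb hd hμ hc
    | zero => simp
    | add g g' _ _ h1 h2 =>
      have e1 : ∀ t : ℕ, ∫ x, (g + g') (F^[t] x) ∂μ
          = ∫ x, g (F^[t] x) ∂μ + ∫ x, g' (F^[t] x) ∂μ := fun t =>
        integral_add (hintt g t) (hintt g' t)
      have e2 : ∫ x, (g + g') x ∂(haar A) = ∫ x, g x ∂(haar A) + ∫ x, g' x ∂(haar A) :=
        integral_add (hint _ inferInstance g) (hint _ inferInstance g')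
      simp_rw [e1]
      rw [e2]
      exact h1.add h2
    | smul a g _ h1 =>
      have e1 : ∀ t : ℕ, ∫ x, (a • g) (F^[t] x) ∂μ = a • ∫ x, g (F^[t] x) ∂μ := fun t =>
        integral_smul a _
      have e2 : ∫ x, (a • g) x ∂(haar A) = a • ∫ x, g x ∂(haar A) := integral_smul a _
      simp_rw [e1]
      rw [e2]
      exact h1.const_smul a
  have hall : ∀ g : C(ℤ → A, ℂ),
      Tendsto (fun t : ℕ => ∫ x, g (F^[t] x) ∂μ) atTop (𝓝 (∫ x, g x ∂(haar A))) := by
    intro g
    rw [Metric.tendsto_nhds]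
    intro ε hε
    obtain ⟨g', hg', hdist⟩ := Metric.mem_closure_iff.1 (dense_chars g) (ε / 3) (by positivity)
    have hb1 : ∀ (ν : Measure (ℤ → A)) [IsProbabilityMeasure ν] (φ : (ℤ → A) → (ℤ → A)),
        Continuous φ → ‖∫ x, g (φ x) ∂ν - ∫ x, g' (φ x) ∂ν‖ ≤ ε / 3 := by
      intro ν _ φ hφ
      have i1 : Integrable (fun x => g (φ x)) ν :=
        hint ν inferInstance ⟨fun x => g (φ x), g.continuous.comp hφ⟩
      have i2 : Integrable (fun x => g' (φ x)) ν :=
        hint ν inferInstance ⟨fun x => g' (φ x), g'.continuous.comp hφ⟩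
      rw [← integral_sub i1 i2]
      have h3 := norm_integral_le_of_norm_le_const (μ := ν) (f := fun x => g (φ x) - g' (φ x))
        (C := ε / 3) (Eventually.of_forall fun x => by
          rw [← dist_eq_norm]
          exact (ContinuousMap.dist_apply_le_dist (φ x)).trans hdist.le)
      simpa using h3
    have h4 := (Metric.tendsto_nhds.1 (hspan g' hg')) (ε / 3) (by positivity)
    filter_upwards [h4] with t ht
    have h5 := hb1 μ (F^[t]) (hcontt t)
    have h6 := hb1 (haar A) id continuous_id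
    simp only [id] at h6
    rw [dist_eq_norm] at ht ⊢
    have e1 : (∫ x, g (F^[t] x) ∂μ) - ∫ x, g x ∂(haar A)
        = ((∫ x, g (F^[t] x) ∂μ) - ∫ x, g' (F^[t] x) ∂μ)
          + ((∫ x, g' (F^[t] x) ∂μ) - ∫ x, g' x ∂(haar A))
          - ((∫ x, g x ∂(haar A)) - ∫ x, g' x ∂(haar A)) := by ring
    rw [e1]
    calc _ ≤ ‖(∫ x, g (F^[t] x) ∂μ) - ∫ x, g' (F^[t] x) ∂μ‖
          + ‖(∫ x, g' (F^[t] x) ∂μ) - ∫ x, g' x ∂(haar A)‖
          + ‖(∫ x, g x ∂(haar A)) - ∫ x, g' x ∂(haar A)‖ :=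
          (norm_sub_le _ _).trans (add_le_add (norm_add_le _ _) le_rfl)
      _ < ε := by linarith
  -- real functions
  set g : C(ℤ → A, ℂ) := ⟨fun x => (f x : ℂ), Complex.continuous_ofReal.comp f.continuous⟩ with hg
  have h1 := (Complex.continuous_re.tendsto _).comp (hall g)
  have e1 : ∀ t : ℕ, (∫ x, g (F^[t] x) ∂μ).re = ∫ x, f (F^[t] x) ∂μ := by
    intro t
    have : ∫ x, g (F^[t] x) ∂μ = ((∫ x, f (F^[t] x) ∂μ : ℝ) : ℂ) := integral_ofReal
    rw [this, Complex.ofReal_re]
  have e2 : (∫ x, g x ∂(haar A)).re = ∫ x, f x ∂(haar A) := by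
    have : ∫ x, g x ∂(haar A) = ((∫ x, f x ∂(haar A) : ℝ) : ℂ) := integral_ofReal
    rw [this, Complex.ofReal_re]
  rw [e2] at h1
  exact h1.congr e1

end Pool.Agent.Q171.CA
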