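import Pool.Agent.Q171.CA.Sol

/-!
# Integrals of characters, density of characters
-/

open MeasureTheory Filter Topology

namespace Pool.Agent.Q171.CA

set_option linter.unusedSectionVars false

variable {A : Type} [AddCommGroup A] [Fintype A] [TopologicalSpace A] [DiscreteTopology A]
  [MeasurableSpace A] [BorelSpace A]

theorem chi_continuous {c : ℤ → AddChar A ℂ} (hc : {k | c k ≠ 1}.Finite) :
    Continuous (chi c) := by
  have hC : ∀ k, c k ≠ 1 → k ∈ hc.toFinset := fun k hk => hc.mem_toFinset.2 hk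
  have : chi c = fun x => ∏ k ∈ hc.toFinset, c k (x k) := funext fun x => chi_eq_prod hC x
  rw [this]
  refine continuous_finsetProd _ fun k _ => ?_
  exact (continuous_of_discreteTopology (f := fun a : A => c k a)).comp (continuous_apply k)

theorem integral_chi (ν : Measure A) [IsProbabilityMeasure ν] {c : ℤ → AddChar A ℂ}
    {C : Finset ℤ} (hC : ∀ k, c k ≠ 1 → k ∈ C) :
    ∫ x, chi c x ∂(Measure.infinitePi (fun _ : ℤ => ν)) = ∏ k ∈ C, ∫ a, c k a ∂ν := by
  classical
  have h1 : ∀ x : ℤ → A, chi c x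
      = (fun y : C → A => ∏ i : C, c i (y i)) (C.restrict x) := by
    intro x
    rw [chi_eq_prod hC, ← Finset.prod_coe_sort]
    rfl
  simp_rw [h1]
  have h2 : Continuous (fun y : C → A => ∏ i : C, c i (y i)) := by
    refine continuous_finsetProd _ fun k _ => ?_
    exact (continuous_of_discreteTopology (f := fun a : A => c k a)).comp (continuous_apply k)
  rw [integral_restrict_infinitePi (μ := fun _ : ℤ => ν)
    (f := fun y : C → A => ∏ i : C, c i (y i)) h2.aestronglyMeasurable]
  rw [integral_fintype_prod_eq_prod (μ := fun _ : C => ν)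
    (f := fun (i : C) (a : A) => c i a)]
  exact Finset.prod_coe_sort C (fun k => ∫ a, c k a ∂ν)

theorem integral_unif {ψ : AddChar A ℂ} (hψ : ψ ≠ 1) :
    ∫ a, ψ a ∂(PMF.uniformOfFintype A).toMeasure = 0 := by
  rw [PMF.integral_eq_sum]
  simp only [PMF.uniformOfFintype_apply]
  rw [← Finset.smul_sum, AddChar.sum_eq_zero_iff_ne_zero.2 hψ, smul_zero]

/-- The Bernoulli measure used as a test. -/
noncomputable def half (A : Type) [AddCommGroup A] [Fintype A] [MeasurableSpace A] : Measure A :=
  (1 / 2 : NNReal) • Measure.dirac 0 + (1 / 2 : NNReal) • (PMF.uniformOfFintype A).toMeasure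

instance : IsProbabilityMeasure (half A) := by
  constructor
  unfold half
  rw [Measure.add_apply, Measure.smul_apply, Measure.smul_apply, measure_univ, measure_univ]
  rw [← add_smul]
  norm_num

theorem integral_half {ψ : AddChar A ℂ} (hψ : ψ ≠ 1) : ∫ a, ψ a ∂(half A) = 1 / 2 := by
  unfold half
  have hint : ∀ μ : Measure A, IsFiniteMeasure μ → Integrable (fun a => ψ a) μ := by
    intro μ _
    exact Integrable.of_finite
  rw [integral_add_measure (hint _ inferInstance) (hint _ inferInstance),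
    integral_smul_nnreal_measure, integral_smul_nnreal_measure, integral_unif hψ,
    integral_dirac, AddChar.map_zero_eq_one]
  simp [NNReal.smul_def]

theorem integral_haar {c : ℤ → AddChar A ℂ} (hc : {k | c k ≠ 1}.Finite) (hc1 : c ≠ 1) :
    ∫ x, chi c x ∂(haar A) = 0 := by
  have hC : ∀ k, c k ≠ 1 → k ∈ hc.toFinset := fun k hk => hc.mem_toFinset.2 hk
  unfold haar
  rw [integral_chi _ hC]
  obtain ⟨k, hk⟩ : ∃ k, c k ≠ 1 := by
    by_contra h
    push Not at h
    exact hc1 (funext h)
  exact Finset.prod_eq_zero (hC k hk) (integral_unif hk)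

theorem integral_bern {c : ℤ → AddChar A ℂ} (hc : {k | c k ≠ 1}.Finite) :
    ∫ x, chi c x ∂(Measure.infinitePi (fun _ : ℤ => half A)) = (1 / 2) ^ rank c := by
  have hC : ∀ k, c k ≠ 1 → k ∈ hc.toFinset := fun k hk => hc.mem_toFinset.2 hk
  rw [integral_chi _ hC]
  have h1 : ∀ k ∈ hc.toFinset, ∫ a, c k a ∂(half A) = 1 / 2 := fun k hk =>
    integral_half (hc.mem_toFinset.1 hk)
  rw [Finset.prod_congr rfl h1, Finset.prod_const, rank, Set.ncard_eq_toFinset_card _ hc]

theorem bern_mixing : HarmonicallyMixing (Measure.infinitePi (fun _ : ℤ => half A)) := by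
  intro ε hε
  obtain ⟨R, hR⟩ := exists_pow_lt_of_lt_one hε (by norm_num : (1 / 2 : ℝ) < 1)
  refine ⟨R, fun c hc hr => ?_⟩
  rw [integral_bern hc, norm_pow]
  have h1 : ‖(1 / 2 : ℂ)‖ = 1 / 2 := by norm_num
  rw [h1]
  exact lt_of_le_of_lt (pow_le_pow_of_le_one (by norm_num) (by norm_num) hr.le) hR

/-- The character as a continuous function. -/
noncomputable def chiM (c : ℤ → AddChar A ℂ) (hc : {k | c k ≠ 1}.Finite) : C(ℤ → A, ℂ) :=
  ⟨chi c, chi_continuous hc⟩

/-- The set of characters. -/
def chars (A : Type) [AddCommGroup A] [Fintype A] [TopologicalSpace A] [DiscreteTopology A] :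
    Set C(ℤ → A, ℂ) := {f | ∃ (c : ℤ → AddChar A ℂ), {k | c k ≠ 1}.Finite ∧ ∀ x, f x = chi c x}

theorem chars_mul {f g : C(ℤ → A, ℂ)} (hf : f ∈ chars A) (hg : g ∈ chars A) :
    f * g ∈ chars A := by
  obtain ⟨c, hc, hcf⟩ := hf
  obtain ⟨d, hd, hdg⟩ := hg
  have hcd : {k | (c * d) k ≠ 1}.Finite := by
    refine (hc.union hd).subset fun k hk => ?_
    by_contra h
    rw [Set.mem_union, not_or] at h
    simp only [Set.mem_ofPred_eq, not_not] at h
    exact hk (by rw [Pi.mul_apply, h.1, h.2, one_mul])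
  refine ⟨c * d, hcd, fun x => ?_⟩
  have h1 : ∀ k, c k ≠ 1 → k ∈ (hc.union hd).toFinset := fun k hk => by
    rw [Set.Finite.mem_toFinset]; exact Or.inl hk
  have h2 : ∀ k, d k ≠ 1 → k ∈ (hc.union hd).toFinset := fun k hk => by
    rw [Set.Finite.mem_toFinset]; exact Or.inr hk
  have h3 : ∀ k, (c * d) k ≠ 1 → k ∈ (hc.union hd).toFinset := fun k hk => by
    by_contra h
    rw [Set.Finite.mem_toFinset, Set.mem_union, not_or] at h
    simp only [Set.mem_ofPred_eq, not_not] at h
    exact hk (by rw [Pi.mul_apply, h.1, h.2, one_mul])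
  rw [ContinuousMap.mul_apply, hcf, hdg, chi_eq_prod h1, chi_eq_prod h2, chi_eq_prod h3,
    ← Finset.prod_mul_distrib]
  rfl

theorem chars_one : (1 : C(ℤ → A, ℂ)) ∈ chars A := by
  refine ⟨1, by simp, fun x => ?_⟩
  have h1 : ∀ k : ℤ, (1 : ℤ → AddChar A ℂ) k ≠ 1 → k ∈ (∅ : Finset ℤ) := fun k hk => by
    exact absurd rfl hk
  rw [chi_eq_prod h1]
  simp

theorem chars_star {f : C(ℤ → A, ℂ)} (hf : f ∈ chars A) : star f ∈ chars A := by
  obtain ⟨c, hc, hcf⟩ := hf
  have h0 : {k | (c⁻¹) k ≠ 1}.Finite := by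
    refine hc.subset fun k hk h => hk ?_
    rw [Pi.inv_apply, h, inv_one]
  refine ⟨c⁻¹, h0, fun x => ?_⟩
  have h1 : ∀ k, c k ≠ 1 → k ∈ hc.toFinset := fun k hk => hc.mem_toFinset.2 hk
  have h2 : ∀ k, (c⁻¹) k ≠ 1 → k ∈ hc.toFinset := fun k hk => h1 k fun h => hk (by
    rw [Pi.inv_apply, h, inv_one])
  rw [ContinuousMap.star_apply, hcf, chi_eq_prod h1, chi_eq_prod h2, star_prod]
  refine Finset.prod_congr rfl fun k _ => ?_
  rw [Pi.inv_apply, AddChar.inv_apply, AddChar.map_neg_eq_conj]
  rfl

theorem adjoin_chars {f : C(ℤ → A, ℂ)} (hf : f ∈ Algebra.adjoin ℂ (chars A)) :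
    f ∈ Submodule.span ℂ (chars A) := by
  have h1 : f ∈ Subalgebra.toSubmodule (Algebra.adjoin ℂ (chars A)) := hf
  rw [Algebra.adjoin_eq_span] at h1
  have h2 : (Submonoid.closure (chars A) : Set C(ℤ → A, ℂ)) = chars A := by
    let M : Submonoid C(ℤ → A, ℂ) :=
      { carrier := chars A
        mul_mem' := chars_mul
        one_mem' := chars_one }
    refine Set.Subset.antisymm ?_ Submonoid.subset_closure
    exact (Submonoid.closure_le (S := M)).2 (le_refl (chars A))
  rwa [h2] at h1

theorem dense_chars (f : C(ℤ → A, ℂ)) : f ∈ closure (Submodule.span ℂ (chars A) : Set _) := by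
  classical
  set B : StarSubalgebra ℂ C(ℤ → A, ℂ) :=
    { Algebra.adjoin ℂ (chars A) with
      star_mem' := by
        intro g hg
        have : g ∈ Algebra.adjoin ℂ (chars A) := hg
        show star g ∈ Algebra.adjoin ℂ (chars A)
        induction this using Algebra.adjoin_induction with
        | mem x hx => exact Algebra.subset_adjoin (chars_star hx)
        | algebraMap r =>
          have : star (algebraMap ℂ C(ℤ → A, ℂ) r) = algebraMap ℂ C(ℤ → A, ℂ) (star r) := by
            ext x
            simp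
          rw [this]
          exact Subalgebra.algebraMap_mem _ _
        | add x y hx hy h1 h2 => rw [star_add]; exact Subalgebra.add_mem _ (h1 hx) (h2 hy)
        | mul x y hx hy h1 h2 => rw [star_mul]; exact Subalgebra.mul_mem _ (h2 hy) (h1 hx) }
    with hB
  have hsep : B.SeparatesPoints := by
    intro x y hxy
    obtain ⟨k, hk⟩ : ∃ k, x k ≠ y k := by
      by_contra h
      push Not at h
      exact hxy (funext h)
    have hne : x k - y k ≠ 0 := sub_ne_zero.2 hk
    obtain ⟨ψ, hψ⟩ := AddChar.exists_apply_ne_zero.2 hne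
    set c : ℤ → AddChar A ℂ := Function.update 1 k ψ with hcdef
    have hC : ∀ j, c j ≠ 1 → j ∈ ({k} : Finset ℤ) := by
      intro j hj
      rw [Finset.mem_singleton]
      by_contra hjk
      apply hj
      rw [hcdef, Function.update_of_ne hjk]
      rfl
    have hc : {j | c j ≠ 1}.Finite := (Finset.finite_toSet {k}).subset fun j hj => hC j hj
    refine ⟨chi c, ⟨chiM c hc, ?_, rfl⟩, ?_⟩
    · exact Algebra.subset_adjoin ⟨c, hc, fun _ => rfl⟩
    · rw [chi_eq_prod hC, chi_eq_prod hC, Finset.prod_singleton, Finset.prod_singleton]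
      have hck : c k = ψ := by rw [hcdef, Function.update_self]
      rw [hck]
      intro heq
      apply hψ
      rw [AddChar.map_sub_eq_div, heq, div_self]
      intro h0
      have h1 := AddChar.map_add_eq_mul ψ (y k) (-(y k))
      rw [add_neg_cancel, AddChar.map_zero_eq_one, h0, zero_mul] at h1
      exact one_ne_zero h1
  have htop := ContinuousMap.starSubalgebra_topologicalClosure_eq_top_of_separatesPoints B hsep
  have hf : f ∈ B.topologicalClosure := by rw [htop]; trivial
  have hf' : f ∈ closure (B : Set C(ℤ → A, ℂ)) := hf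
  refine closure_mono ?_ hf'
  intro g hg
  exact adjoin_chars hg

end Pool.Agent.Q171.CA
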