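import Mathlib

/-!
# Valuations of norms of sums of widely spaced terms
-/

open WithZero Filter

namespace Pool.Agent.Q171.CA

section det

variable {K : Type} [Field K] {Γ : Type} [LinearOrderedCommGroupWithZero Γ] (v : Valuation K Γ)

/-- The ideal of topologically small elements. -/
def small : Ideal v.integer where
  carrier := {x | v (x : K) < 1}
  add_mem' := fun {a b} ha hb => by
    show v ((a + b : v.integer) : K) < 1
    exact v.map_add_lt ha hb
  zero_mem' := by
    show v ((0 : v.integer) : K) < 1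
    simp
  smul_mem' := fun c x hx => by
    show v ((c * x : v.integer) : K) < 1
    have h1 : v (c : K) ≤ 1 := c.2
    have h2 : v (x : K) < 1 := hx
    rw [Subring.coe_mul, v.map_mul]
    exact (mul_le_mul' h1 le_rfl).trans_lt (by rw [one_mul]; exact h2)

theorem det_one_add {n : Type} [Fintype n] [DecidableEq n] (E : Matrix n n K)
    (hE : ∀ i j, v (E i j) < 1) : v (1 + E).det = 1 := by
  classical
  set E' : Matrix n n v.integer := fun i j => ⟨E i j, (hE i j).le⟩ with hE'
  have h1 : (1 + E).det = (((1 + E').det : v.integer) : K) := by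
    have h2 := RingHom.map_det v.integer.subtype (1 + E')
    rw [Subring.subtype_apply] at h2
    rw [h2]
    congr 1
    ext i j
    rw [RingHom.mapMatrix_apply, Matrix.map_apply, Matrix.add_apply, Matrix.add_apply,
      Subring.subtype_apply, Subring.coe_add]
    congr 1
    by_cases hij : i = j
    · subst hij
      simp
    · simp [hij]
  have h3 : Ideal.Quotient.mk (small v) ((1 + E').det) = 1 := by
    rw [RingHom.map_det]
    have : (Ideal.Quotient.mk (small v)).mapMatrix (1 + E') = 1 := by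
      rw [map_add, map_one]
      have h0 : (Ideal.Quotient.mk (small v)).mapMatrix E' = 0 := by
        ext i j
        rw [RingHom.mapMatrix_apply, Matrix.map_apply, Matrix.zero_apply,
          Ideal.Quotient.eq_zero_iff_mem]
        exact hE i j
      rw [h0, add_zero]
    rw [this, Matrix.det_one]
  have h4 : (1 + E').det - 1 ∈ small v := by
    rw [← Ideal.Quotient.eq_zero_iff_mem, map_sub, h3, map_one, sub_self]
  have h5 : v ((((1 + E').det : v.integer) : K) - 1) < 1 := h4
  rw [h1]
  have h6 := v.map_one_add_of_lt h5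
  rwa [add_sub_cancel] at h6

end det

section norm

variable {K L : Type} [Field K] [Field L] [Algebra K L] [FiniteDimensional K L]
  (v : Valuation K ℤᵐ⁰)

theorem norm_one_add {η : L}
    (hη : ∀ i j, v (Algebra.leftMulMatrix (Module.finBasis K L) η i j) < 1) :
    v (Algebra.norm K (1 + η)) = 1 := by
  classical
  rw [Algebra.norm_eq_matrix_det (Module.finBasis K L), map_add, map_one]
  exact det_one_add v _ hη

theorem eventually_small {x : ℤᵐ⁰} (hx : x < 1) (c : ℤᵐ⁰) :
    ∀ᶠ g : ℕ in atTop, x ^ g * c < 1 := by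
  rcases eq_or_ne c 0 with rfl | hc
  · simp
  rcases eq_or_ne x 0 with rfl | hx0
  · filter_upwards [eventually_gt_atTop 0] with g hg
    rw [zero_pow hg.ne', zero_mul]
    exact zero_lt_one
  · obtain ⟨a, ha⟩ : ∃ a : ℤ, x = exp a := ⟨log x, (exp_log hx0).symm⟩
    obtain ⟨b, hb⟩ : ∃ b : ℤ, c = exp b := ⟨log c, (exp_log hc).symm⟩
    subst ha hb
    have ha : a < 0 := by
      rw [← exp_zero, exp_lt_exp] at hx
      exact hx
    filter_upwards [eventually_gt_atTop b.toNat] with g hg
    rw [← exp_nsmul, ← exp_add, ← exp_zero, exp_lt_exp, nsmul_eq_mul]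
    have h1 : b ≤ b.toNat := Int.self_le_toNat b
    have h2 : (b.toNat : ℤ) < g := by exact_mod_cast hg
    nlinarith

/-- Valuation of the norm of a sum whose terms are widely spaced. -/
theorem norm_sum {ι : Type} (J : Finset ι) (ε : ι → L) (hε : ∀ j ∈ J, ε j ≠ 0) {T : K}
    (hT : v T < 1) (hT0 : T ≠ 0) :
    ∃ G : ℕ, ∀ (a : ι → ℤ) (j₀ : ι), j₀ ∈ J → (∀ j ∈ J, j ≠ j₀ → a j₀ + G ≤ a j) →
      v (Algebra.norm K (∑ j ∈ J, (algebraMap K L T) ^ (a j) * ε j))
        = v T ^ (a j₀ * Module.finrank K L) * v (Algebra.norm K (ε j₀)) := by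
  classical
  set B := Module.finBasis K L
  have hev : ∀ᶠ g : ℕ in atTop, ∀ j₀ ∈ J, ∀ j ∈ J, ∀ x y,
      v T ^ g * v (Algebra.leftMulMatrix B (ε j / ε j₀) x y) < 1 := by
    rw [Filter.eventually_all_finset]; intro j₀ _
    rw [Filter.eventually_all_finset]; intro j _
    rw [Filter.eventually_all]; intro x
    rw [Filter.eventually_all]; intro y
    exact eventually_small hT _
  obtain ⟨G, hG⟩ := eventually_atTop.1 hev
  refine ⟨G, fun a j₀ hj₀ ha => ?_⟩
  have hne : algebraMap K L T ≠ 0 := by simpa using hT0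
  set τ := algebraMap K L T with hτ
  have hfac : ∑ j ∈ J, τ ^ (a j) * ε j = (τ ^ (a j₀) * ε j₀) *
      (1 + ∑ j ∈ J.erase j₀, τ ^ (a j - a j₀) * (ε j / ε j₀)) := by
    rw [← Finset.add_sum_erase _ _ hj₀, mul_add, mul_one, Finset.mul_sum]
    congr 1
    refine Finset.sum_congr rfl fun j _ => ?_
    rw [zpow_sub₀ hne]
    have := hε j₀ hj₀
    field_simp
  rw [hfac, map_mul, map_mul, map_mul, map_mul]
  have h1 : v (Algebra.norm K (1 + ∑ j ∈ J.erase j₀, τ ^ (a j - a j₀) * (ε j / ε j₀))) = 1 := by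
    apply norm_one_add
    intro x y
    rw [map_sum, Matrix.sum_apply]
    refine v.map_sum_lt one_ne_zero fun j hj => ?_
    obtain ⟨hjne, hjJ⟩ := Finset.mem_erase.1 hj
    have hgap := ha j hjJ hjne
    obtain ⟨g, hg⟩ : ∃ g : ℕ, a j - a j₀ = g := ⟨(a j - a j₀).toNat, by omega⟩
    have hgG : G ≤ g := by omega
    have h2 : τ ^ (a j - a j₀) * (ε j / ε j₀) = (T ^ g) • (ε j / ε j₀) := by
      rw [hg, zpow_natCast, hτ, ← map_pow, Algebra.smul_def]
    rw [h2, map_smul, Matrix.smul_apply, smul_eq_mul, v.map_mul, v.map_pow]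
    exact hG g hgG j₀ hj₀ j hjJ x y
  rw [h1, mul_one]
  congr 1
  have h3 : τ ^ (a j₀) = algebraMap K L (T ^ (a j₀)) := by rw [hτ, map_zpow₀]
  rw [h3, Algebra.norm_algebraMap, v.map_pow, map_zpow₀, ← zpow_natCast, ← zpow_mul]

end norm

end Pool.Agent.Q171.CA
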