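import Pool.Agent.Q171.CA.Norm

/-!
# Powers with few terms infinitely often
-/

open WithZero Filter

namespace Pool.Agent.Q171.CA

/-- Either two values differ by a power of `t`, or there are infinitely many values which
are sums of at least two widely spaced fixed terms. -/
theorem cluster {L : Type} [Field L] {t : L} (ht : t ≠ 0) {y : ℕ → L} (hy : ∀ n, y n ≠ 0)
    (Hgap : ∀ (J : Finset ℕ) (ε : ℕ → L), (∀ j ∈ J, ε j ≠ 0) → 2 ≤ J.card →
      ∃ G : ℕ, ∀ (n : ℕ) (a : ℕ → ℤ), (∀ i ∈ J, ∀ j ∈ J, i ≠ j → (G : ℤ) ≤ |a i - a j|) →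
        y n ≠ ∑ j ∈ J, t ^ (a j) * ε j) (r : ℕ) :
    ∀ (J : Finset ℕ), J.card = r → ∀ (ε : ℕ → L) (E : Set ℕ), E.Infinite →
      ∀ a : ℕ → ℕ → ℤ, (∀ n ∈ E, y n = ∑ j ∈ J, t ^ (a n j) * ε j) →
      ∃ n n', n < n' ∧ ∃ b : ℤ, y n' = t ^ b * y n := by
  classical
  induction r with
  | zero =>
    intro J hJ ε E hE a h
    obtain ⟨n, hn⟩ := hE.nonempty
    have := h n hn
    rw [Finset.card_eq_zero.1 hJ, Finset.sum_empty] at this
    exact absurd this (hy n)
  | succ r ih =>
    intro J hJ ε E hE a h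
    by_cases h0 : ∃ j ∈ J, ε j = 0
    · obtain ⟨j, hj, hεj⟩ := h0
      refine ih (J.erase j) (by rw [Finset.card_erase_of_mem hj, hJ]; rfl) ε E hE a fun n hn => ?_
      rw [h n hn, ← Finset.add_sum_erase J _ hj, hεj, mul_zero, zero_add]
    · push Not at h0
      by_cases h1 : ∃ i ∈ J, ∃ j ∈ J, i ≠ j ∧ ∃ c : ℤ, {n ∈ E | a n i - a n j = c}.Infinite
      · obtain ⟨i, hi, j, hj, hij, c, hc⟩ := h1
        refine ih (J.erase i) (by rw [Finset.card_erase_of_mem hi, hJ]; rfl)
          (Function.update ε j (ε j + t ^ c * ε i)) _ hc a fun n hn => ?_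
        obtain ⟨hnE, hnc⟩ := hn
        have hji : j ∈ J.erase i := Finset.mem_erase.2 ⟨hij.symm, hj⟩
        rw [h n hnE, ← Finset.add_sum_erase J _ hi, ← Finset.add_sum_erase _ _ hji,
          ← Finset.add_sum_erase (J.erase i) (fun x => t ^ (a n x) *
            Function.update ε j (ε j + t ^ c * ε i) x) hji, Function.update_self]
        have e1 : t ^ (a n i) = t ^ (a n j) * t ^ c := by
          rw [← zpow_add₀ ht]
          congr 1
          omega
        have e2 : ∑ x ∈ (J.erase i).erase j, t ^ (a n x) *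
            Function.update ε j (ε j + t ^ c * ε i) x
            = ∑ x ∈ (J.erase i).erase j, t ^ (a n x) * ε x := by
          refine Finset.sum_congr rfl fun x hx => ?_
          rw [Function.update_of_ne (Finset.ne_of_mem_erase hx)]
        rw [e2, e1]
        ring
      · push Not at h1
        by_cases hr : r = 0
        · -- one term
          subst hr
          obtain ⟨j, rfl⟩ := Finset.card_eq_one.1 hJ
          obtain ⟨n, hn⟩ := hE.nonempty
          obtain ⟨n', hn', hlt⟩ := hE.exists_gt n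
          refine ⟨n, n', hlt, a n' j - a n j, ?_⟩
          rw [h n hn, h n' hn', Finset.sum_singleton, Finset.sum_singleton, ← mul_assoc,
            ← zpow_add₀ ht]
          congr 2
          ring
        · -- at least two terms
          exfalso
          obtain ⟨G, hG⟩ := Hgap J ε h0 (by omega)
          have hfin : {n ∈ E | ∃ i ∈ J, ∃ j ∈ J, i ≠ j ∧ |a n i - a n j| < G}.Finite := by
            have hsub : {n ∈ E | ∃ i ∈ J, ∃ j ∈ J, i ≠ j ∧ |a n i - a n j| < G}
                ⊆ ⋃ i ∈ J, ⋃ j ∈ J, ⋃ c ∈ Finset.Ioo (-(G : ℤ)) G,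
                  {n | i ≠ j ∧ n ∈ E ∧ a n i - a n j = c} := by
              rintro n ⟨hnE, i, hi, j, hj, hij, hlt⟩
              simp only [Set.mem_iUnion]
              exact ⟨i, hi, j, hj, a n i - a n j, Finset.mem_Ioo.2 (abs_lt.1 hlt), hij, hnE, rfl⟩
            refine Set.Finite.subset ?_ hsub
            refine Set.Finite.biUnion J.finite_toSet fun i hi => ?_
            refine Set.Finite.biUnion J.finite_toSet fun j hj => ?_
            refine Set.Finite.biUnion (Finset.finite_toSet _) fun c _ => ?_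
            by_cases hij : i = j
            · convert Set.finite_empty using 1
              ext n
              simp [hij]
            · have := h1 i hi j hj hij c
              refine this.subset ?_
              rintro n ⟨_, hnE, hnc⟩
              exact ⟨hnE, hnc⟩
          obtain ⟨n, hnE, hn⟩ := hE.exists_notMem_finite hfin
          refine hG n (a n) (fun i hi j hj hij => ?_) (h n hnE)
          by_contra hlt
          push Not at hlt
          exact hn ⟨hnE, i, hi, j, hj, hij, hlt⟩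

section field

variable {k : Type} [Field k] {L : Type} [Field L] [Algebra (RatFunc k) L]
  [FiniteDimensional (RatFunc k) L]

/-- The valuation at zero. -/
noncomputable def vz (k : Type) [Field k] : Valuation (RatFunc k) ℤᵐ⁰ :=
  (Polynomial.idealX k).valuation (RatFunc k)

open scoped Classical in
/-- The valuation at infinity. -/
noncomputable def vi (k : Type) [Field k] : Valuation (RatFunc k) ℤᵐ⁰ :=
  RatFunc.inftyValuation k

theorem vz_X : vz k RatFunc.X = exp (-1 : ℤ) := Polynomial.valuation_X_eq_neg_one k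

theorem vi_X : vi k RatFunc.X = exp (1 : ℤ) := by
  classical
  exact RatFunc.inftyValuation.X k

theorem gap_property {lam : L} {b : ℤ}
    (h0 : vz k (Algebra.norm (RatFunc k) lam) = exp (-b))
    (h1 : vi k (Algebra.norm (RatFunc k) lam) = exp b)
    (J : Finset ℕ) (ε : ℕ → L) (hε : ∀ j ∈ J, ε j ≠ 0) (hJ : 2 ≤ J.card) :
      ∃ G : ℕ, ∀ (n : ℕ) (a : ℕ → ℤ), (∀ i ∈ J, ∀ j ∈ J, i ≠ j → (G : ℤ) ≤ |a i - a j|) →
        lam ^ n ≠ ∑ j ∈ J, (algebraMap (RatFunc k) L RatFunc.X) ^ (a j) * ε j := by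
  classical
  have hX : (RatFunc.X : RatFunc k) ≠ 0 := RatFunc.X_ne_zero
  have hd : 0 < Module.finrank (RatFunc k) L := Module.finrank_pos
  set d := Module.finrank (RatFunc k) L with hddef
  obtain ⟨G₁, hG₁⟩ := norm_sum (vz k) J ε hε (T := RatFunc.X) (by
    rw [vz_X, ← exp_zero, exp_lt_exp]; norm_num) hX
  obtain ⟨G₂, hG₂⟩ := norm_sum (vi k) J ε hε (T := (RatFunc.X)⁻¹) (by
    rw [map_inv₀, vi_X, ← exp_neg, ← exp_zero, exp_lt_exp]; norm_num) (inv_ne_zero hX)
  set α : ℕ → ℤ := fun j => log (vz k (Algebra.norm (RatFunc k) (ε j))) with hα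
  set β : ℕ → ℤ := fun j => log (vi k (Algebra.norm (RatFunc k) (ε j))) with hβ
  set C : ℤ := ∑ j ∈ J, (|α j| + |β j|) with hC
  have hnorm : ∀ j ∈ J, Algebra.norm (RatFunc k) (ε j) ≠ 0 := fun j hj =>
    Algebra.norm_ne_zero_iff.2 (hε j hj)
  refine ⟨G₁ + G₂ + 2 * C.toNat + 1, fun n a ha heq => ?_⟩
  have hJne : J.Nonempty := Finset.card_pos.1 (by omega)
  obtain ⟨j₀, hj₀, hmin⟩ := J.exists_min_image a hJne
  obtain ⟨j₁, hj₁, hmax⟩ := J.exists_max_image a hJne
  obtain ⟨j₂, hj₂, hne⟩ := Finset.exists_mem_ne (by omega : 1 < J.card) j₀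
  have hgap : ∀ i ∈ J, ∀ j ∈ J, i ≠ j → a i ≤ a j → a i + ((G₁ + G₂ + 2 * C.toNat + 1 : ℕ) : ℤ) ≤ a j := by
    intro i hi j hj hij hle
    have := ha i hi j hj hij
    rw [abs_sub_comm, abs_of_nonneg (by omega)] at this
    linarith
  have e1 := hG₁ a j₀ hj₀ (fun j hj hjne => by
    have := hgap j₀ hj₀ j hj hjne.symm (hmin j hj)
    push_cast at this
    have : 0 ≤ (C.toNat : ℤ) := Int.natCast_nonneg _
    have : 0 ≤ (G₂ : ℤ) := Int.natCast_nonneg _
    linarith)
  have e2 := hG₂ (fun j => - a j) j₁ hj₁ (fun j hj hjne => by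
    have := hgap j hj j₁ hj₁ hjne (hmax j hj)
    push_cast at this
    have : 0 ≤ (C.toNat : ℤ) := Int.natCast_nonneg _
    have : 0 ≤ (G₁ : ℤ) := Int.natCast_nonneg _
    linarith)
  have e3 : ∑ j ∈ J, (algebraMap (RatFunc k) L (RatFunc.X)⁻¹) ^ (- a j) * ε j
      = ∑ j ∈ J, (algebraMap (RatFunc k) L RatFunc.X) ^ (a j) * ε j := by
    refine Finset.sum_congr rfl fun j _ => ?_
    rw [map_inv₀, inv_zpow', neg_neg]
  rw [e3] at e2
  rw [← heq, map_pow, map_pow, h0, vz_X] at e1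
  rw [← heq, map_pow, map_pow, h1, map_inv₀, vi_X, ← exp_neg] at e2
  have n1 : vz k (Algebra.norm (RatFunc k) (ε j₀)) = exp (α j₀) :=
    (exp_log ((Valuation.ne_zero_iff _).2 (hnorm j₀ hj₀))).symm
  have n2 : vi k (Algebra.norm (RatFunc k) (ε j₁)) = exp (β j₁) :=
    (exp_log ((Valuation.ne_zero_iff _).2 (hnorm j₁ hj₁))).symm
  rw [n1, ← exp_nsmul, ← exp_zsmul, ← exp_add, exp_inj] at e1
  rw [n2, ← exp_nsmul, ← exp_zsmul, ← exp_add, exp_inj] at e2
  simp only [nsmul_eq_mul, smul_eq_mul] at e1 e2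
  have hb1 : |α j₀| + |β j₀| ≤ C := Finset.single_le_sum
    (f := fun j => |α j| + |β j|) (fun j _ => by positivity) hj₀
  have hb2 : |α j₁| + |β j₁| ≤ C := Finset.single_le_sum
    (f := fun j => |α j| + |β j|) (fun j _ => by positivity) hj₁
  have hne01 : j₀ ≠ j₁ := by
    intro h
    subst h
    have h3 := hmin j₂ hj₂
    have h4 := hmax j₂ hj₂
    have h5 := ha j₂ hj₂ j₀ hj₀ hne
    rw [show a j₂ - a j₀ = 0 by omega] at h5
    simp at h5
    omega
  have hg := hgap j₀ hj₀ j₁ hj₁ hne01 (hmin j₁ hj₁)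
  push_cast at hg
  have hCnn : 0 ≤ C := le_trans (by positivity) hb1
  have hCt : (C.toNat : ℤ) = C := Int.toNat_of_nonneg hCnn
  rw [hCt] at hg
  have hG1 : (0 : ℤ) ≤ G₁ := Int.natCast_nonneg _
  have hG2 : (0 : ℤ) ≤ G₂ := Int.natCast_nonneg _
  have hα0 := neg_abs_le (α j₀)
  have hβ1 := neg_abs_le (β j₁)
  have hα0' := abs_nonneg (β j₀)
  have hβ1' := abs_nonneg (α j₁)
  have hd' : (1 : ℤ) ≤ d := by exact_mod_cast hd
  have hdiff : 2 * C + 1 ≤ a j₁ - a j₀ := by linarith
  have hmul : a j₁ - a j₀ ≤ (d : ℤ) * (a j₁ - a j₀) := by nlinarith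
  have hsum : (d : ℤ) * (a j₁ - a j₀) = - α j₀ - β j₁ := by linarith
  linarith

theorem vz_C {c : k} (hc : c ≠ 0) : vz k (algebraMap (Polynomial k) (RatFunc k)
    (Polynomial.C c)) = 1 := by
  have h1 : ∀ P : Polynomial k, vz k (algebraMap (Polynomial k) (RatFunc k) P) ≤ 1 := fun P =>
    (Polynomial.idealX k).valuation_le_one P
  refine le_antisymm (h1 _) ?_
  have h2 := h1 (Polynomial.C c⁻¹)
  have h3 : vz k (algebraMap (Polynomial k) (RatFunc k) (Polynomial.C c)) *
      vz k (algebraMap (Polynomial k) (RatFunc k) (Polynomial.C c⁻¹)) = 1 := by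
    rw [← map_mul, ← map_mul, ← map_mul, mul_inv_cancel₀ hc]
    simp
  calc (1 : ℤᵐ⁰) = _ := h3.symm
    _ ≤ vz k (algebraMap (Polynomial k) (RatFunc k) (Polynomial.C c)) * 1 :=
      mul_le_mul' le_rfl h2
    _ = _ := mul_one _

theorem vi_C {c : k} (hc : c ≠ 0) : vi k (algebraMap (Polynomial k) (RatFunc k)
    (Polynomial.C c)) = 1 := by
  classical
  rw [RatFunc.algebraMap_C]
  exact RatFunc.inftyValuation.C k hc

theorem norm_monomial [Algebra (Polynomial k) L] [IsScalarTower (Polynomial k) (RatFunc k) L]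
    {lam : L} (hlam : lam ≠ 0) {s s' : ℕ}
    (h1 : IsIntegral (Polynomial k) ((algebraMap (RatFunc k) L RatFunc.X) ^ s * lam))
    (h2 : IsIntegral (Polynomial k) ((algebraMap (RatFunc k) L RatFunc.X) ^ s' * lam⁻¹)) :
    ∃ b : ℤ, vz k (Algebra.norm (RatFunc k) lam) = exp (-b) ∧
      vi k (Algebra.norm (RatFunc k) lam) = exp b := by
  set d := Module.finrank (RatFunc k) L with hd
  have hX : (RatFunc.X : RatFunc k) ≠ 0 := RatFunc.X_ne_zero
  set x := Algebra.norm (RatFunc k) lam with hx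
  have hx0 : x ≠ 0 := Algebra.norm_ne_zero_iff.2 hlam
  have e1 : Algebra.norm (RatFunc k) ((algebraMap (RatFunc k) L RatFunc.X) ^ s * lam)
      = RatFunc.X ^ (s * d) * x := by
    rw [map_mul, ← map_pow, Algebra.norm_algebraMap, ← pow_mul]
  have e2 : Algebra.norm (RatFunc k) ((algebraMap (RatFunc k) L RatFunc.X) ^ s' * lam⁻¹)
      = RatFunc.X ^ (s' * d) * x⁻¹ := by
    have hinv : Algebra.norm (RatFunc k) lam⁻¹ = x⁻¹ := by
      refine eq_inv_of_mul_eq_one_left ?_
      rw [hx, ← map_mul, inv_mul_cancel₀ hlam, map_one]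
    rw [map_mul, ← map_pow, Algebra.norm_algebraMap, ← pow_mul, hinv]
  have i1 := Algebra.isIntegral_norm (RatFunc k) h1
  have i2 := Algebra.isIntegral_norm (RatFunc k) h2
  rw [e1] at i1
  rw [e2] at i2
  obtain ⟨P, hP⟩ := IsIntegrallyClosed.isIntegral_iff.1 i1
  obtain ⟨Q, hQ⟩ := IsIntegrallyClosed.isIntegral_iff.1 i2
  have hPQ : P * Q = Polynomial.X ^ ((s + s') * d) := by
    apply RatFunc.algebraMap_injective k
    rw [map_mul, hP, hQ, map_pow, RatFunc.algebraMap_X]
    field_simp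
    ring
  obtain ⟨i, _, hi⟩ := (dvd_prime_pow Polynomial.prime_X _).1 (Dvd.intro _ hPQ)
  obtain ⟨u, hu⟩ := hi.symm
  obtain ⟨c, hc, hcu⟩ := Polynomial.isUnit_iff.1 u.isUnit
  have hc0 : c ≠ 0 := hc.ne_zero
  have hP' : RatFunc.X ^ (s * d) * x
      = RatFunc.X ^ i * algebraMap (Polynomial k) (RatFunc k) (Polynomial.C c) := by
    rw [← hP, ← hu, ← hcu, map_mul, map_pow, RatFunc.algebraMap_X]
  refine ⟨(i : ℤ) - s * d, ?_, ?_⟩
  · have h3 := congrArg (vz k) hP'
    rw [map_mul, map_mul, map_pow, map_pow, vz_C hc0, vz_X, mul_one] at h3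
    have hxv : vz k x = exp (log (vz k x)) := (exp_log ((Valuation.ne_zero_iff _).2 hx0)).symm
    rw [hxv, ← exp_nsmul, ← exp_nsmul, ← exp_add, exp_inj] at h3
    rw [hxv, exp_inj]
    simp only [nsmul_eq_mul] at h3
    push_cast at h3
    linarith
  · have h3 := congrArg (vi k) hP'
    rw [map_mul, map_mul, map_pow, map_pow, vi_C hc0, vi_X, mul_one] at h3
    have hxv : vi k x = exp (log (vi k x)) := (exp_log ((Valuation.ne_zero_iff _).2 hx0)).symm
    rw [hxv, ← exp_nsmul, ← exp_nsmul, ← exp_add, exp_inj] at h3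
    rw [hxv, exp_inj]
    simp only [nsmul_eq_mul] at h3
    push_cast at h3
    linarith

/-- Enumerating the terms of a sum. -/
theorem enumerate {W : Type} [Zero W] {M : Type} [AddCommMonoid M] (r : ℕ) :
    ∀ (S : Finset ℤ) (φ : ℤ → W), S.card ≤ r → ∃ (pos : ℕ → ℤ) (val : ℕ → W),
      ∀ f : ℤ → W → M, (∀ n, f n 0 = 0) →
        ∑ n ∈ S, f n (φ n) = ∑ j ∈ Finset.range r, f (pos j) (val j) := by
  classical
  induction r with
  | zero =>
    intro S φ hS
    refine ⟨fun _ => 0, fun _ => 0, fun f hf => ?_⟩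
    rw [Finset.card_eq_zero.1 (Nat.le_zero.1 hS)]
    simp
  | succ r ih =>
    intro S φ hS
    rcases S.eq_empty_or_nonempty with rfl | ⟨n, hn⟩
    · refine ⟨fun _ => 0, fun _ => 0, fun f hf => ?_⟩
      simp [hf]
    · obtain ⟨pos, val, h⟩ := ih (S.erase n) φ (by rw [Finset.card_erase_of_mem hn]; omega)
      refine ⟨Function.update pos r n, Function.update val r (φ n), fun f hf => ?_⟩
      rw [← Finset.add_sum_erase S _ hn, h f hf, Finset.sum_range_succ, Function.update_self,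
        Function.update_self, add_comm]
      congr 1
      refine Finset.sum_congr rfl fun j hj => ?_
      have : j ≠ r := (Finset.mem_range.1 hj).ne
      rw [Function.update_of_ne this, Function.update_of_ne this]

/-- A power of `lam` is a power of the variable. -/
theorem power {W : Type} [Finite W] [Zero W] (ev : W → L) (hev : ev 0 = 0)
    {lam : L} (hlam : lam ≠ 0) {b : ℤ}
    (h0 : vz k (Algebra.norm (RatFunc k) lam) = exp (-b))
    (h1 : vi k (Algebra.norm (RatFunc k) lam) = exp b) (r : ℕ)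
    (hE : {n : ℕ | ∃ (S : Finset ℤ) (φ : ℤ → W), S.card ≤ r ∧
      lam ^ n = ∑ j ∈ S, (algebraMap (RatFunc k) L RatFunc.X) ^ j * ev (φ j)}.Infinite) :
    ∃ N : ℕ, 0 < N ∧ ∃ b' : ℤ, lam ^ N = (algebraMap (RatFunc k) L RatFunc.X) ^ b' := by
  classical
  set t := algebraMap (RatFunc k) L RatFunc.X with ht
  have ht0 : t ≠ 0 := (map_ne_zero _).2 RatFunc.X_ne_zero
  set E := {n : ℕ | ∃ (S : Finset ℤ) (φ : ℤ → W), S.card ≤ r ∧
      lam ^ n = ∑ j ∈ S, t ^ j * ev (φ j)} with hEdef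
  have hch : ∀ n : ℕ, ∃ (pos : ℕ → ℤ) (val : ℕ → W), n ∈ E →
      lam ^ n = ∑ j ∈ Finset.range r, t ^ (pos j) * ev (val j) := by
    intro n
    by_cases hn : n ∈ E
    · obtain ⟨S, φ, hS, heq⟩ := hn
      obtain ⟨pos, val, h⟩ := enumerate (M := L) r S φ hS
      refine ⟨pos, val, fun _ => ?_⟩
      rw [heq]
      exact h (fun j w => t ^ j * ev w) (fun j => by rw [hev, mul_zero])
    · exact ⟨fun _ => 0, fun _ => 0, fun h => absurd h hn⟩
  choose pos val hval using hch
  obtain ⟨g, hg⟩ : ∃ g : Fin r → W, {n ∈ E | ∀ j : Fin r, val n j = g j}.Infinite := by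
    by_contra hcon
    push Not at hcon
    apply hE
    refine (Set.finite_iUnion hcon).subset fun n hn => ?_
    rw [Set.mem_iUnion]
    exact ⟨fun j => val n j, hn, fun j => rfl⟩
  obtain ⟨n, n', hlt, b', hb'⟩ := cluster ht0 (y := fun n => lam ^ n) (fun n => pow_ne_zero n hlam)
    (gap_property h0 h1) r (Finset.range r) (Finset.card_range r)
    (fun j => if hj : j < r then ev (g ⟨j, hj⟩) else 0) _ hg pos (by
      rintro n ⟨hnE, hn⟩
      rw [hval n hnE]
      refine Finset.sum_congr rfl fun j hj => ?_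
      have hj' := Finset.mem_range.1 hj
      rw [dif_pos hj', ← hn ⟨j, hj'⟩])
  refine ⟨n' - n, by omega, b', ?_⟩
  have h3 : lam ^ n' = lam ^ (n' - n) * lam ^ n := by rw [← pow_add]; congr 1; omega
  have h4 : lam ^ (n' - n) * lam ^ n = t ^ b' * lam ^ n := by rw [← h3]; exact hb'
  exact mul_right_cancel₀ (pow_ne_zero n hlam) h4

end field

end Pool.Agent.Q171.CA
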