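import Pool.Agent.Q171.CA.Char

/-!
# From infinitely many small ranks to bounded ranks
-/

open MeasureTheory Filter Topology

namespace Pool.Agent.Q171.CA

set_option linter.unusedSectionVars false

variable {A : Type} [AddCommGroup A] [TopologicalSpace A] [DiscreteTopology A]

/-- The inverse of a reversible abelian cellular automaton. -/
theorem exists_inverse [Finite A] {F : (ℤ → A) →+ (ℤ → A)} (hF : IsAbelianCA F)
    (hb : Function.Bijective F) : ∃ F' : (ℤ → A) →+ (ℤ → A), IsAbelianCA F' ∧
      (∀ x, F' (F x) = x) ∧ ∀ x, F (F' x) = x := by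
  set e := AddEquiv.ofBijective F hb with he
  have h1 : ∀ x, e.symm (F x) = x := fun x => e.symm_apply_apply x
  have h2 : ∀ x, F (e.symm x) = x := fun x => e.apply_symm_apply x
  refine ⟨e.symm.toAddMonoidHom, ⟨?_, ?_⟩, h1, h2⟩
  · have hc : Continuous e.toEquiv := hF.cont
    exact Continuous.continuous_symm_of_equiv_compact_to_t2 hc
  · intro x
    apply hb.1
    show F (e.symm (shift x)) = F (shift (e.symm x))
    rw [h2, hF.comm, h2]

theorem component {p : ℕ} [Fact p.Prime] {F : (ℤ → A) →+ (ℤ → A)} (hF : IsAbelianCA F)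
    {S : Finset ℤ} (hS : ∀ x : ℤ → A, (∀ i ∈ S, x i = 0) → F x 0 = 0)
    (w : ℤ →₀ (A →+ ZMod p)) (t : ℕ) :
    cw ((dual F S ^ t) w) = pull (itr F t) (cw w) (cw_finite w) := by
  classical
  funext j
  ext a
  rw [pull_apply, chi_cw, itr_apply, ← pair_dual_pow hF hS, pair_Pi_single]
  rfl

theorem card_sh {p : ℕ} [Fact p.Prime] [Finite A] (b : ℤ) (w : ℤ →₀ (A →+ ZMod p)) :
    (sh (k := ZMod p) b w).support.card = w.support.card := by
  classical
  have hinj : Function.Injective (fun n : ℤ => n + b) := add_left_injective b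
  rw [sh, Finsupp.lmapDomain_apply, Finsupp.mapDomain_support_of_injective hinj,
    Finset.card_image_of_injective _ hinj]

theorem bounded_of_infinitely_often [Finite A] {F : (ℤ → A) →+ (ℤ → A)} (hF : IsAbelianCA F)
    (hb : Function.Bijective F) {c : ℤ → AddChar A ℂ} (hc : {k | c k ≠ 1}.Finite)
    (hc1 : c ≠ 1) {R : ℕ} (hR : {t : ℕ | rank (pull (itr F t) c hc) ≤ R}.Infinite) :
    ∃ (c' : ℤ → AddChar A ℂ) (hc' : {k | c' k ≠ 1}.Finite), c' ≠ 1 ∧ ∃ C : ℕ, ∀ t,
      rank (pull (itr F t) c' hc') ≤ C := by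
  classical
  obtain ⟨p, hp, m, w, hw, hcw⟩ := exists_torsion hc hc1
  obtain ⟨F', hF', hl, hr⟩ := exists_inverse hF hb
  obtain ⟨S, hS⟩ := exists_window hF
  obtain ⟨S', hS'⟩ := exists_window hF'
  set T : (ℤ →₀ (A →+ ZMod p)) →ₗ[ZMod p] (ℤ →₀ (A →+ ZMod p)) := dual F S with hT
  set T' : (ℤ →₀ (A →+ ZMod p)) →ₗ[ZMod p] (ℤ →₀ (A →+ ZMod p)) := dual F' S' with hT'
  have h1 : ∀ u, T (T' u) = u := fun u => pair_ext fun x => by
    rw [hT, hT', pair_dual hF hS, pair_dual hF' hS', hl]
  have h2 : ∀ u, T' (T u) = u := fun u => pair_ext fun x => by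
    rw [hT, hT', pair_dual hF' hS', pair_dual hF hS, hr]
  have : Finite (A →+ ZMod p) := DFunLike.finite _
  have hinf : {n : ℕ | ((T ^ n) w).support.card ≤ R}.Infinite := by
    refine hR.mono fun t ht => ?_
    have ht' : rank (pull (itr F t) c hc) ≤ R := ht
    show ((T ^ t) w).support.card ≤ R
    refine le_trans ?_ ht'
    rw [← rank_cw]
    refine Set.ncard_le_ncard ?_ (pull_prop (iterate_ca hF t) c hc).1
    intro j hj hj'
    apply hj
    rw [component hF hS]
    ext a
    rw [pull_apply, hcw]
    have h3 : ∀ x, chi (c ^ m) x = chi c x ^ m := by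
      intro x
      have hC : ∀ k, c k ≠ 1 → k ∈ hc.toFinset := fun k hk => hc.mem_toFinset.2 hk
      have hC' : ∀ k, (c ^ m) k ≠ 1 → k ∈ hc.toFinset := fun k hk => by
        apply hC
        intro h
        apply hk
        rw [Pi.pow_apply, h, one_pow]
      rw [chi_eq_prod hC, chi_eq_prod hC', ← Finset.prod_pow]
      refine Finset.prod_congr rfl fun k _ => ?_
      rw [Pi.pow_apply, AddChar.pow_apply]
    rw [h3]
    have h4 : chi c (itr F t (Pi.single j a)) = 1 := by
      have := DFunLike.congr_fun hj' a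
      rw [pull_apply] at this
      exact this
    rw [h4, one_pow]
    rfl
  obtain ⟨w', hw', N, hN, b, hb'⟩ := core (k := ZMod p) (T := T) (T' := T')
    (fun b u => dual_sh F S b u) (fun b u => dual_sh F' S' b u) h1 h2 hw hinf
  refine ⟨cw w', cw_finite w', ?_, ∑ i ∈ Finset.range N, ((T ^ i) w').support.card, fun t => ?_⟩
  · intro h
    apply hw'
    ext k a
    have := (cw_eq_one w' k).1 (congrFun h k)
    rw [this]
    rfl
  · rw [← component hF hS, rank_cw]
    have hkey : ∀ q i : ℕ, ((T ^ (N * q + i)) w').support.card = ((T ^ i) w').support.card := by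
      intro q
      induction q with
      | zero => intro i; simp
      | succ q ih =>
        intro i
        have e1 : N * (q + 1) + i = (N * q + i) + N := by ring
        rw [e1, pow_add, Module.End.mul_apply, hb']
        have e2 : ∀ (n : ℕ) (u : ℤ →₀ (A →+ ZMod p)),
            (T ^ n) (sh (k := ZMod p) b u) = sh (k := ZMod p) b ((T ^ n) u) := by
          intro n
          induction n with
          | zero => intro u; rfl
          | succ n ihn =>
            intro u
            rw [pow_succ, Module.End.mul_apply, Module.End.mul_apply, dual_sh, ihn]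
        rw [e2, card_sh, ih]
    have hlt : t % N < N := Nat.mod_lt _ hN
    have e3 : t = N * (t / N) + t % N := (Nat.div_add_mod t N).symm
    have e4 := hkey (t / N) (t % N)
    rw [← e3] at e4
    rw [hT] at e4
    rw [e4]
    exact Finset.single_le_sum (f := fun i => ((T ^ i) w').support.card)
      (fun _ _ => Nat.zero_le _) (Finset.mem_range.2 hlt)

end Pool.Agent.Q171.CA
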